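import Mathlib

/-! Checking a multiplication table packed into one natural number. -/

namespace Pool.Agent.Lib.MP_0d0fd2_co

def look (T n x y : ℕ) : ℕ := Nat.land (Nat.shiftRight T (8 * (x * n + y))) 255

def allLt (p : ℕ → Bool) : ℕ → Bool
  | 0 => true
  | k + 1 => p k && allLt p k

lemma allLt_spec {p : ℕ → Bool} : ∀ {k : ℕ}, allLt p k = true → ∀ i < k, p i = true
  | 0, _, _, h => absurd h (Nat.not_lt_zero _)
  | k + 1, h, i, hi => by
    rw [allLt, Bool.and_eq_true] at h
    rcases Nat.lt_succ_iff_lt_or_eq.1 hi with h1 | rfl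
    · exact allLt_spec h.2 i h1
    · exact h.1

def cell (T n x y : ℕ) : Bool :=
  Nat.blt (look T n y x) n && Nat.beq (look T n (look T n (look T n y x) y) y) x

def row (T n x : ℕ) : Bool := Nat.beq (look T n x x) x && allLt (cell T n x) n

def chk (T n : ℕ) : Bool := allLt (row T n) n

/-- The conclusion for one order. -/
def Ex (n : ℕ) : Prop :=
  ∃ op : Fin n → Fin n → Fin n,
    (∀ a b, ∃! x, op a x = b) ∧ (∀ a b, ∃! x, op x a = b) ∧ (∀ x, op x x = x) ∧
      ∀ x y, op (op (op y x) y) y = x

theorem ex_of_identity {n : ℕ} (op : Fin n → Fin n → Fin n) (h1 : ∀ x, op x x = x)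
    (h2 : ∀ x y, op (op (op y x) y) y = x) : Ex n := by
  refine ⟨op, fun a => ?_, fun a => ?_, h1, h2⟩
  · have hi : Function.Injective (op a) := fun x x' h => by rw [← h2 x a, h, h2]
    exact (Function.bijective_iff_existsUnique _).1 hi.bijective_of_finite
  · have hs : Function.Surjective (fun x => op x a) := fun x => ⟨_, h2 x a⟩
    exact (Function.bijective_iff_existsUnique _).1 hs.bijective_of_finite

theorem ex_of_chk {T n : ℕ} (h : chk T n = true) : Ex n := by
  have hr : ∀ x < n, look T n x x = x ∧ ∀ y < n, look T n y x < n ∧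
      look T n (look T n (look T n y x) y) y = x := by
    intro x hx
    have h1 := allLt_spec h x hx
    rw [row, Bool.and_eq_true] at h1
    refine ⟨Nat.eq_of_beq_eq_true h1.1, fun y hy => ?_⟩
    have h2 := allLt_spec h1.2 y hy
    rw [cell, Bool.and_eq_true] at h2
    exact ⟨by simpa [Nat.blt_eq] using h2.1, Nat.eq_of_beq_eq_true h2.2⟩
  exact ex_of_identity (fun y x => ⟨look T n y x, ((hr x x.2).2 y y.2).1⟩)
    (fun x => Fin.ext (hr x x.2).1) (fun x y => Fin.ext ((hr x x.2).2 y y.2).2)

end Pool.Agent.Lib.MP_0d0fd2_co
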