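import Pool.Agent.Lib.MP_0d0fd2_co.CloRec
import Pool.Agent.Lib.MP_0d0fd2_co.CloSmall
import Pool.Agent.Lib.MP_0d0fd2_co.CloS51
import Pool.Agent.Lib.MP_0d0fd2_co.CloS70
import Pool.Agent.Lib.MP_0d0fd2_co.CloS71
import Pool.Agent.Lib.MP_0d0fd2_co.CloS72
import Pool.Agent.Lib.MP_0d0fd2_co.CloS74
import Pool.Agent.Lib.MP_0d0fd2_co.CloS75
import Pool.Agent.Lib.MP_0d0fd2_co.CloS80
import Pool.Agent.Lib.MP_0d0fd2_co.CloS87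
import Pool.Agent.Lib.MP_0d0fd2_co.CloS90
import Pool.Agent.Lib.MP_0d0fd2_co.CloS92
import Pool.Agent.Lib.MP_0d0fd2_co.CloS94
import Pool.Agent.Lib.MP_0d0fd2_co.CloS96
import Pool.Agent.Lib.MP_0d0fd2_co.CloS98
import Pool.Agent.Lib.MP_0d0fd2_co.CloS99
import Pool.Agent.Lib.MP_0d0fd2_co.CloS100
import Pool.Agent.Lib.MP_0d0fd2_co.CloS102
import Pool.Agent.Lib.MP_0d0fd2_co.CloS106
import Pool.Agent.Lib.MP_0d0fd2_co.CloS108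
import Pool.Agent.Lib.MP_0d0fd2_co.CloS110
import Pool.Agent.Lib.MP_0d0fd2_co.CloS111
import Pool.Agent.Lib.MP_0d0fd2_co.CloS112
import Pool.Agent.Lib.MP_0d0fd2_co.CloS114
import Pool.Agent.Lib.MP_0d0fd2_co.CloS116
import Pool.Agent.Lib.MP_0d0fd2_co.CloS118
import Pool.Agent.Lib.MP_0d0fd2_co.CloS122
import Pool.Agent.Lib.MP_0d0fd2_co.T132
import Pool.Agent.Lib.MP_0d0fd2_co.CloS142
import Pool.Agent.Lib.MP_0d0fd2_co.CloS146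
import Pool.Agent.Lib.MP_0d0fd2_co.CloS154
import Pool.Agent.Lib.MP_0d0fd2_co.T158
import Pool.Agent.Lib.MP_0d0fd2_co.CloS164
import Pool.Agent.Lib.MP_0d0fd2_co.T170
import Pool.Agent.Lib.MP_0d0fd2_co.T174
import Pool.Agent.Lib.MP_0d0fd2_co.CloS262
import Pool.Agent.Lib.MP_0d0fd2_co.CloS268
import Pool.Agent.Lib.MP_0d0fd2_co.CloS300

/-! The induction over all orders. -/

namespace Pool.Agent.Lib.MP_0d0fd2_co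

def exc : List ℕ := [
  2, 3, 4, 6, 9, 10, 12, 13, 14, 15, 16, 18, 20, 22, 24, 26, 28, 30, 34, 38, 39, 42, 44, 46, 52,
  58, 60, 62, 66, 68, 76, 86]

def dat : Data := ⟨exc, [
  8, 27, 47, 51, 70, 71, 72, 74, 75, 80, 87, 90, 92, 94, 96, 98, 99, 100, 102, 106, 108, 110, 111,
  112, 114, 116, 118, 122, 132, 142, 146, 154, 158, 164, 170, 174, 262, 268, 300],
  [(2, 4), (4, 6), (6, 5)], [(25, 8), (40, 8)]⟩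

theorem dat_good : dat.Good := by
  simp only [Data.Good, dat, List.forall_mem_cons, List.not_mem_nil, false_imp_iff, implies_true,
    and_true]
  exact ⟨⟨mdS8, mdS27, mdS47, mdS51, mdS70, mdS71, mdS72, mdS74, mdS75, mdS80, mdS87, mdS90, mdS92, mdS94, mdS96, mdS98, mdS99, mdS100, mdS102, mdS106, mdS108, mdS110, mdS111, mdS112, mdS114, mdS116, mdS118, mdS122, md_of_ex ex132, mdS142, mdS146, mdS154, md_of_ex ex158, mdS164, md_of_ex ex170, md_of_ex ex174, mdS262, mdS268, mdS300⟩,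
    ⟨holH2x4, holH4x6, holH6x5⟩, incI25x8, incI40x8⟩

def recs : List (List ℕ) := [
  [], [], [], [], [], [2], [], [4], [], [], [], [9], [], [], [], [], [], [10], [], [3], [],
  [4, 4, 4, 1, 1], [], [15], [], [4, 5, 5, 1, 0], [], [], [], [6, 1, 1, 4, 1], [], [4, 1, 1, 6, 1],
  [3, 4, 4, 2, 0], [7, 1, 1, 4, 1], [], [4, 7, 7, 1, 0], [4, 7, 7, 1, 1], [17], [], [],
  [4, 8, 8, 1, 0], [3, 5, 5, 2, 1], [], [30], [], [10, 1, 1, 4, 1], [], [], [40, 8],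
  [6, 7, 7, 1, 0], [7, 7, 1, 1, 0], [], [], [10], [7, 7, 5, 1, 0], [4, 11, 11, 1, 0],
  [6, 8, 8, 1, 0], [7, 8, 1, 1, 0], [], [7], [], [7, 8, 5, 1, 0], [], [7, 8, 7, 1, 0],
  [7, 8, 8, 1, 0], [3, 8, 8, 2, 1], [], [19], [], [16, 1, 1, 4, 1], [], [], [], [3, 9, 9, 2, 1],
  [], [], [], [6, 11, 11, 1, 0], [7, 11, 1, 1, 0], [75], [], [4, 16, 16, 1, 1], [7, 11, 5, 1, 0],
  [44], [7, 11, 7, 1, 0], [4, 17, 17, 1, 0], [], [], [7, 11, 11, 1, 0], [3, 11, 11, 2, 1], [],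
  [4, 1, 1, 18, 1], [], [22, 1, 1, 4, 1], [], [4, 19, 19, 1, 0], [], [3, 12, 12, 2, 1], [], [], [],
  [4, 20, 20, 1, 1], [], [4, 4, 1, 6, 1], [3, 12, 12, 2, 8, 3, 4, 4, 2, 0], [4, 7, 7, 3, 0], [],
  [22], [], [26, 1, 1, 4, 1], [], [], [], [6, 16, 16, 1, 1], [], [4, 23, 23, 1, 0], [],
  [7, 16, 4, 1, 1], [], [6, 17, 17, 1, 0], [7, 17, 1, 1, 0], [10, 1, 1, 11, 0], [],
  [7, 16, 10, 1, 1], [7, 17, 5, 1, 0], [4, 25, 25, 1, 0], [7, 17, 7, 1, 0], [7, 17, 8, 1, 0],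
  [3, 16, 16, 2, 0], [7, 16, 16, 1, 1], [7, 17, 11, 1, 0], [7, 16, 14, 1, 5, 4, 4, 4, 1, 1], [],
  [6, 19, 19, 1, 0], [7, 19, 1, 1, 0], [4, 27, 27, 1, 0], [7, 17, 17, 1, 0], [3, 17, 17, 2, 1],
  [7, 19, 5, 1, 0], [4, 5, 3, 6, 1], [7, 19, 7, 1, 0], [7, 19, 8, 1, 0], [],
  [4, 5, 3, 6, 5, 6, 1, 1, 5, 0], [7, 19, 11, 1, 0], [4, 29, 29, 1, 0], [], [6, 7, 7, 3, 0],
  [20, 1, 1, 7, 1], [36, 1, 1, 4, 1], [7, 19, 17, 1, 0], [4, 5, 5, 6, 1], [7, 19, 19, 1, 0],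
  [4, 4, 3, 8, 1], [], [4, 31, 31, 1, 0], [4, 31, 31, 1, 1], [5, 7, 4, 4, 1], [],
  [5, 7, 3, 4, 7, 4, 7, 7, 1, 0], [4, 32, 32, 1, 0], [6, 23, 23, 1, 0], [7, 23, 1, 1, 0],
  [5, 7, 4, 4, 7, 4, 7, 7, 1, 0], [], [4, 11, 11, 3, 0], [7, 23, 5, 1, 0], [16], [7, 23, 7, 1, 0],
  [7, 23, 8, 1, 0], [], [5, 7, 6, 4, 7, 4, 7, 7, 1, 0], [7, 23, 11, 1, 0], [42, 1, 1, 4, 1], [],
  [4, 35, 35, 1, 0], [7, 25, 1, 1, 0], [5, 8, 4, 4, 1], [7, 23, 17, 1, 0],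
  [7, 8, 2, 3, 5, 6, 1, 1, 4, 1], [4, 36, 36, 1, 0], [4, 36, 36, 1, 1], [7, 23, 21, 1, 0],
  [7, 25, 8, 1, 0], [7, 23, 23, 1, 0], [4, 37, 37, 1, 0], [7, 25, 11, 1, 0], [16, 1, 1, 11, 0],
  [5, 9, 2, 4, 0], [6, 27, 27, 1, 0], [7, 27, 1, 1, 0], [160], [7, 25, 17, 1, 0],
  [3, 24, 24, 2, 1], [7, 25, 19, 1, 0], [6, 7, 5, 4, 7, 4, 7, 7, 1, 0], [7, 25, 21, 1, 0],
  [7, 27, 8, 1, 0], [7, 25, 23, 1, 0], [4, 7, 5, 6, 1], [4, 40, 40, 1, 0], [4, 40, 40, 1, 1],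
  [7, 25, 19, 1, 8], [6, 29, 29, 1, 0], [7, 29, 1, 1, 0], [4, 41, 41, 1, 0], [7, 27, 17, 1, 0],
  [7, 25, 24, 1, 8], [7, 27, 19, 1, 0], [18, 1, 1, 11, 0], [7, 27, 21, 1, 0], [7, 29, 8, 1, 0],
  [7, 27, 23, 1, 0], [52, 1, 1, 4, 1], [7, 27, 25, 1, 0], [4, 43, 43, 1, 0], [7, 27, 27, 1, 0],
  [6, 31, 31, 1, 0], [7, 31, 1, 1, 0], [7, 7, 4, 4, 7, 4, 7, 7, 1, 0], [7, 29, 17, 1, 0],
  [4, 44, 44, 1, 1], [7, 29, 19, 1, 0], [4, 8, 5, 6, 1], [6, 32, 32, 1, 0], [4, 45, 45, 1, 0],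
  [7, 29, 23, 1, 0], [207], [7, 29, 25, 1, 0], [7, 32, 5, 1, 0], [7, 29, 27, 1, 0],
  [7, 32, 7, 1, 0], [7, 29, 29, 1, 0], [3, 29, 29, 2, 1], [7, 31, 17, 1, 0], [4, 47, 47, 1, 0],
  [7, 31, 19, 1, 0], [58, 1, 1, 4, 1], [7, 31, 21, 1, 0], [5, 11, 2, 4, 11, 4, 11, 11, 1, 0],
  [7, 31, 23, 1, 0], [7, 32, 17, 1, 0], [7, 31, 25, 1, 0], [7, 32, 19, 1, 0], [7, 31, 27, 1, 0],
  [4, 49, 49, 1, 0], [7, 31, 29, 1, 0], [7, 32, 23, 1, 0], [7, 31, 31, 1, 0], [7, 32, 25, 1, 0],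
  [49, 1, 1, 5, 0], [7, 32, 27, 1, 0], [7, 11, 7, 3, 0], [7, 32, 29, 1, 0], [31, 1, 1],
  [7, 32, 31, 1, 0], [7, 32, 32, 1, 0], [7, 32, 32, 1, 1], [7, 11, 9, 3, 0], [6, 37, 37, 1, 0],
  [7, 37, 1, 1, 0], [4, 52, 52, 1, 1], [], [42], [7, 37, 5, 1, 0], [4, 53, 53, 1, 0],
  [7, 37, 7, 1, 0], [7, 37, 8, 1, 0], [], [66, 1, 1, 4, 1], [7, 37, 11, 1, 0], [4, 9, 9, 6, 1],
  [4, 7, 6, 8, 0], [7, 9, 5, 4, 1], [6, 13, 13, 3, 1], [4, 55, 55, 1, 0], [7, 37, 17, 1, 0],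
  [68, 1, 1, 4, 1], [7, 37, 19, 1, 0], [4, 7, 6, 8, 7, 7, 8, 7, 1, 0], [4, 56, 56, 1, 0],
  [4, 56, 56, 1, 1], [7, 37, 23, 1, 0], [4, 11, 3, 6, 1], [7, 37, 25, 1, 0], [4, 19, 19, 3, 0],
  [7, 37, 27, 1, 0], [6, 41, 41, 1, 0], [7, 37, 29, 1, 0], [16, 1, 1, 17, 0], [7, 37, 31, 1, 0],
  [7, 37, 32, 1, 0], [7, 37, 33, 1, 0], [72, 1, 1, 4, 1], [7, 37, 35, 1, 0], [4, 59, 59, 1, 0],
  [7, 37, 37, 1, 0], [26, 1, 1, 11, 0], [7, 41, 11, 1, 0], [6, 11, 6, 4, 11, 4, 11, 11, 1, 0], [],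
  [6, 43, 43, 1, 0], [7, 43, 1, 1, 0], [7, 8, 3, 5, 8], [7, 41, 17, 1, 0], [4, 61, 61, 1, 0],
  [7, 41, 19, 1, 0], [4, 11, 7, 6, 1], [7, 41, 21, 1, 0], [7, 43, 8, 1, 0], [7, 41, 23, 1, 0],
  [7, 8, 6, 5, 1], [7, 41, 25, 1, 0], [3, 39, 39, 2, 1], [7, 41, 27, 1, 0], [4, 63, 63, 1, 0],
  [7, 41, 29, 1, 0], [78, 1, 1, 4, 1], [7, 41, 31, 1, 0], [7, 41, 32, 1, 0], [4, 64, 64, 1, 0],
  [4, 64, 64, 1, 1], [7, 41, 35, 1, 0], [7, 41, 36, 1, 0], [7, 41, 37, 1, 0], [4, 65, 65, 1, 0],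
  [7, 43, 25, 1, 0], [7, 41, 40, 1, 0], [7, 41, 41, 1, 0], [6, 47, 47, 1, 0], [7, 43, 29, 1, 0],
  [4, 11, 11, 6, 1], [7, 43, 31, 1, 0], [7, 43, 32, 1, 0], [7, 43, 33, 1, 0], [4, 67, 67, 1, 0],
  [7, 43, 35, 1, 0], [7, 43, 36, 1, 0], [7, 43, 37, 1, 0], [7, 11, 5, 4, 11, 4, 11, 11, 1, 0],
  [7, 47, 11, 1, 0], [7, 43, 40, 1, 0], [7, 43, 41, 1, 0], [6, 49, 49, 1, 0], [7, 43, 43, 1, 0],
  [4, 23, 23, 3, 0], [7, 47, 17, 1, 0], [166], [7, 47, 19, 1, 0], [86, 1, 1, 4, 1],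
  [7, 47, 21, 1, 0], [7, 49, 8, 1, 0], [7, 47, 23, 1, 0], [3, 44, 44, 2, 1], [7, 47, 25, 1, 0],
  [4, 71, 71, 1, 0], [7, 47, 27, 1, 0], [6, 17, 17, 3, 0], [7, 47, 29, 1, 0], [39],
  [4, 72, 72, 1, 0], [7, 47, 32, 1, 0], [7, 47, 33, 1, 0], [7, 16, 9, 3, 0], [7, 47, 35, 1, 0],
  [4, 73, 73, 1, 0], [7, 47, 37, 1, 0], [7, 16, 10, 3, 1], [7, 49, 25, 1, 0], [7, 47, 40, 1, 0],
  [7, 47, 41, 1, 0], [6, 53, 53, 1, 0], [7, 47, 43, 1, 0], [7, 16, 12, 3, 1], [7, 47, 45, 1, 0],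
  [7, 49, 32, 1, 0], [7, 47, 47, 1, 0], [7, 47, 47, 1, 1], [7, 49, 35, 1, 0], [7, 49, 36, 1, 0],
  [7, 49, 37, 1, 0], [7, 16, 15, 3, 0], [7, 53, 11, 1, 0], [7, 49, 40, 1, 0], [7, 49, 41, 1, 0],
  [4, 77, 77, 1, 0], [7, 49, 43, 1, 0], [4, 77, 77, 1, 2, 7, 11, 2, 1, 0], [7, 49, 45, 1, 0],
  [96, 1, 1, 4, 1], [7, 49, 47, 1, 0], [7, 49, 48, 1, 0], [6, 56, 56, 1, 0], [7, 56, 1, 1, 0],
  [7, 53, 23, 1, 0], [4, 79, 79, 1, 0], [7, 53, 25, 1, 0], [7, 56, 5, 1, 0], [7, 53, 27, 1, 0],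
  [7, 56, 7, 1, 0], [4, 80, 80, 1, 0], [4, 80, 80, 1, 1], [7, 53, 31, 1, 0], [7, 53, 32, 1, 0],
  [7, 53, 33, 1, 0], [4, 81, 81, 1, 0], [7, 53, 35, 1, 0], [7, 53, 36, 1, 0], [7, 53, 37, 1, 0],
  [7, 56, 17, 1, 0], [81, 1, 1, 5, 0], [7, 53, 40, 1, 0], [7, 53, 41, 1, 0], [6, 59, 59, 1, 0],
  [7, 53, 43, 1, 0], [4, 83, 83, 1, 0], [7, 53, 45, 1, 0], [7, 56, 25, 1, 0], [7, 53, 47, 1, 0],
  [7, 53, 48, 1, 0], [7, 53, 49, 1, 0], [7, 53, 50, 1, 0], [7, 53, 51, 1, 0], [7, 56, 31, 1, 0],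
  [7, 53, 53, 1, 0], [4, 85, 85, 1, 0], [7, 19, 9, 3, 0], [6, 61, 61, 1, 0], [7, 56, 36, 1, 0],
  [7, 56, 37, 1, 0], [7, 59, 17, 1, 0], [255], [7, 56, 40, 1, 0], [7, 56, 41, 1, 0],
  [7, 59, 21, 1, 0], [7, 56, 43, 1, 0], [7, 59, 23, 1, 0], [7, 56, 45, 1, 0], [7, 59, 25, 1, 0],
  [7, 56, 47, 1, 0], [4, 88, 88, 1, 0], [6, 63, 63, 1, 0], [7, 56, 50, 1, 0], [7, 56, 51, 1, 0],
  [7, 59, 31, 1, 0], [4, 89, 89, 1, 0], [7, 56, 54, 1, 0], [7, 56, 55, 1, 0], [6, 64, 64, 1, 0],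
  [7, 59, 36, 1, 0], [7, 59, 37, 1, 0], [40, 1, 1, 11, 0], [7, 61, 25, 1, 0], [7, 59, 40, 1, 0],
  [7, 59, 41, 1, 0], [4, 91, 91, 1, 0], [7, 59, 43, 1, 0], [3, 57, 57, 2, 1], [7, 59, 45, 1, 0],
  [7, 61, 32, 1, 0], [4, 92, 92, 1, 0], [7, 59, 48, 1, 0], [7, 59, 49, 1, 0], [7, 59, 50, 1, 0],
  [7, 59, 51, 1, 0], [7, 64, 17, 1, 0], [7, 59, 53, 1, 0], [7, 59, 54, 1, 0], [7, 59, 55, 1, 0],
  [6, 67, 67, 1, 0], [7, 59, 57, 1, 0], [7, 64, 23, 1, 0], [7, 59, 59, 1, 0], [7, 63, 32, 1, 0],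
  [7, 61, 47, 1, 0], [4, 95, 95, 1, 0], [7, 61, 49, 1, 0], [7, 61, 50, 1, 0], [7, 61, 51, 1, 0],
  [7, 64, 31, 1, 0], [7, 61, 53, 1, 0], [7, 61, 54, 1, 0], [7, 61, 55, 1, 0], [7, 61, 56, 1, 0],
  [7, 61, 57, 1, 0], [4, 97, 97, 1, 0], [7, 61, 59, 1, 0], [4, 17, 13, 6, 1], [7, 61, 61, 1, 0],
  [7, 63, 48, 1, 0], [7, 63, 49, 1, 0], [7, 63, 50, 1, 0], [7, 63, 51, 1, 0], [7, 64, 45, 1, 0],
  [7, 63, 53, 1, 0], [4, 99, 99, 1, 0], [7, 63, 55, 1, 0], [6, 71, 71, 1, 0], [7, 63, 57, 1, 0],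
  [7, 64, 51, 1, 0], [4, 100, 100, 1, 0], [7, 64, 53, 1, 0], [7, 63, 61, 1, 0], [7, 64, 55, 1, 0],
  [6, 72, 72, 1, 0], [4, 101, 101, 1, 0], [7, 67, 37, 1, 0], [7, 64, 59, 1, 0], [7, 71, 11, 1, 0],
  [7, 64, 61, 1, 0], [7, 67, 41, 1, 0], [6, 73, 73, 1, 0], [7, 64, 64, 1, 0], [26, 1, 1, 19, 0],
  [7, 67, 45, 1, 0], [4, 103, 103, 1, 0], [7, 67, 47, 1, 0], [7, 67, 48, 1, 0], [7, 67, 49, 1, 0],
  [7, 67, 50, 1, 0], [4, 104, 104, 1, 0], [7, 72, 17, 1, 0], [7, 67, 53, 1, 0], [7, 67, 54, 1, 0],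
  [7, 67, 55, 1, 0], [7, 67, 56, 1, 0], [7, 67, 57, 1, 0], [7, 72, 23, 1, 0], [7, 67, 59, 1, 0],
  [7, 71, 32, 1, 0], [7, 67, 61, 1, 0], [7, 72, 27, 1, 0], [7, 67, 63, 1, 0], [7, 67, 64, 1, 0],
  [7, 67, 65, 1, 0], [4, 107, 107, 1, 0], [7, 67, 67, 1, 0], [7, 71, 40, 1, 0], [7, 71, 41, 1, 0],
  [6, 77, 77, 1, 0], [4, 108, 108, 1, 0], [7, 72, 37, 1, 0], [7, 71, 45, 1, 0], [7, 73, 32, 1, 0],
  [7, 71, 47, 1, 0], [4, 109, 109, 1, 0], [7, 71, 49, 1, 0], [7, 71, 50, 1, 0], [7, 71, 51, 1, 0],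
  [7, 72, 45, 1, 0], [7, 71, 53, 1, 0], [7, 71, 54, 1, 0], [7, 71, 55, 1, 0], [6, 79, 79, 1, 0],
  [7, 71, 57, 1, 0], [7, 72, 51, 1, 0], [7, 71, 59, 1, 0], [7, 72, 53, 1, 0], [7, 71, 61, 1, 0],
  [7, 72, 55, 1, 0], [4, 112, 112, 1, 0], [7, 71, 64, 1, 0], [7, 71, 65, 1, 0], [7, 72, 59, 1, 0],
  [7, 71, 67, 1, 0], [4, 113, 113, 1, 0], [7, 71, 69, 1, 0], [6, 81, 81, 1, 0], [7, 71, 71, 1, 0],
  [7, 72, 65, 1, 0], [7, 73, 59, 1, 0], [7, 72, 67, 1, 0], [7, 73, 61, 1, 0], [7, 72, 69, 1, 0],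
  [7, 72, 70, 1, 0], [4, 115, 115, 1, 0], [7, 72, 72, 1, 0], [7, 72, 72, 1, 1], [7, 73, 67, 1, 0],
  [7, 77, 40, 1, 0], [4, 116, 116, 1, 0], [6, 83, 83, 1, 0], [7, 73, 71, 1, 0], [7, 73, 72, 1, 0],
  [7, 73, 73, 1, 0], [4, 117, 117, 1, 0], [7, 77, 47, 1, 0], [7, 77, 48, 1, 0], [7, 77, 49, 1, 0],
  [7, 77, 50, 1, 0], [7, 77, 51, 1, 0], [7, 16, 6, 5, 1], [7, 77, 53, 1, 0], [7, 77, 54, 1, 0],
  [7, 77, 55, 1, 0], [4, 119, 119, 1, 0], [7, 77, 57, 1, 0], [7, 25, 24, 3, 0], [7, 77, 59, 1, 0],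
  [7, 81, 32, 1, 0], [7, 77, 61, 1, 0], [7, 79, 48, 1, 0], [7, 77, 63, 1, 0], [7, 77, 64, 1, 0],
  [7, 77, 65, 1, 0], [4, 121, 121, 1, 0], [7, 77, 67, 1, 0], [7, 79, 54, 1, 0], [7, 77, 69, 1, 0],
  [7, 77, 70, 1, 0], [7, 77, 71, 1, 0], [7, 77, 72, 1, 0], [7, 77, 73, 1, 0], [7, 77, 74, 1, 0],
  [7, 77, 75, 1, 0], [7, 81, 48, 1, 0], [6, 88, 88, 1, 0], [7, 79, 64, 1, 0], [7, 79, 65, 1, 0],
  [4, 23, 11, 6, 1], [4, 124, 124, 1, 0], [7, 81, 54, 1, 0], [7, 79, 69, 1, 0], [6, 89, 89, 1, 0],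
  [7, 79, 71, 1, 0], [4, 125, 125, 1, 0], [7, 79, 73, 1, 0], [7, 79, 74, 1, 0], [7, 79, 75, 1, 0],
  [7, 83, 48, 1, 0], [7, 79, 77, 1, 0], [7, 79, 78, 1, 0], [7, 79, 79, 1, 0], [7, 88, 17, 1, 0],
  [7, 81, 67, 1, 0], [4, 127, 127, 1, 0], [7, 81, 69, 1, 0], [6, 91, 91, 1, 0], [7, 81, 71, 1, 0],
  [7, 81, 72, 1, 0], [4, 128, 128, 1, 0], [7, 81, 74, 1, 0], [7, 81, 75, 1, 0], [7, 88, 27, 1, 0],
  [7, 81, 77, 1, 0], [7, 81, 78, 1, 0], [7, 81, 79, 1, 0], [7, 81, 80, 1, 0], [7, 81, 81, 1, 0],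
  [7, 88, 33, 1, 0], [7, 83, 69, 1, 0], [7, 83, 70, 1, 0], [7, 83, 71, 1, 0], [7, 83, 72, 1, 0],
  [7, 83, 73, 1, 0], [4, 131, 131, 1, 0], [7, 83, 75, 1, 0], [7, 88, 41, 1, 0], [7, 83, 77, 1, 0],
  [7, 83, 78, 1, 0], [7, 83, 79, 1, 0], [7, 83, 80, 1, 0], [7, 83, 81, 1, 0], [7, 83, 82, 1, 0],
  [7, 83, 83, 1, 0], [4, 133, 133, 1, 0], [7, 88, 50, 1, 0], [7, 88, 51, 1, 0], [7, 89, 45, 1, 0],
  [7, 88, 53, 1, 0], [7, 88, 54, 1, 0], [7, 88, 55, 1, 0], [7, 88, 56, 1, 0], [7, 88, 57, 1, 0],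
  [7, 89, 51, 1, 0], [4, 135, 135, 1, 0], [7, 89, 53, 1, 0], [7, 88, 61, 1, 0], [7, 89, 55, 1, 0],
  [6, 97, 97, 1, 0], [4, 136, 136, 1, 0], [7, 88, 65, 1, 0], [7, 89, 59, 1, 0], [7, 88, 67, 1, 0],
  [7, 89, 61, 1, 0], [4, 137, 137, 1, 0], [7, 88, 70, 1, 0], [7, 88, 71, 1, 0], [7, 88, 72, 1, 0],
  [7, 88, 73, 1, 0], [7, 88, 74, 1, 0], [7, 88, 75, 1, 0], [7, 89, 69, 1, 0], [6, 99, 99, 1, 0],
  [7, 88, 78, 1, 0], [4, 139, 139, 1, 0], [7, 88, 80, 1, 0], [7, 88, 81, 1, 0], [7, 88, 82, 1, 0],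
  [7, 88, 83, 1, 0], [4, 140, 140, 1, 0], [7, 88, 85, 1, 0], [7, 89, 79, 1, 0], [7, 88, 87, 1, 0],
  [7, 88, 88, 1, 0], [7, 89, 82, 1, 0], [7, 89, 83, 1, 0], [6, 101, 101, 1, 0], [7, 89, 85, 1, 0],
  [7, 91, 72, 1, 0], [7, 89, 87, 1, 0], [7, 89, 88, 1, 0], [7, 89, 89, 1, 0], [30, 1, 1, 23, 0],
  [7, 91, 77, 1, 0], [4, 143, 143, 1, 0], [7, 91, 79, 1, 0], [7, 91, 80, 1, 0], [7, 91, 81, 1, 0],
  [7, 91, 82, 1, 0], [4, 144, 144, 1, 0], [6, 103, 103, 1, 0], [7, 91, 85, 1, 0],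
  [7, 31, 24, 3, 0], [7, 91, 87, 1, 0], [4, 145, 145, 1, 0], [7, 91, 89, 1, 0], [7, 91, 90, 1, 0],
  [6, 104, 104, 1, 0], [7, 97, 50, 1, 0], [7, 97, 51, 1, 0], [42, 1, 1, 17, 0], [7, 97, 53, 1, 0],
  [7, 97, 54, 1, 0], [7, 97, 55, 1, 0], [7, 97, 56, 1, 0], [7, 97, 57, 1, 0], [66, 1, 1, 11, 0],
  [7, 97, 59, 1, 0], [7, 101, 32, 1, 0], [4, 148, 148, 1, 0], [7, 99, 48, 1, 0], [7, 97, 63, 1, 0],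
  [7, 97, 64, 1, 0], [7, 97, 65, 1, 0], [4, 149, 149, 1, 0], [7, 97, 67, 1, 0], [7, 99, 54, 1, 0],
  [7, 97, 69, 1, 0], [6, 107, 107, 1, 0], [7, 97, 71, 1, 0], [7, 97, 72, 1, 0], [7, 97, 73, 1, 0],
  [7, 97, 74, 1, 0], [7, 97, 75, 1, 0], [4, 151, 151, 1, 0], [7, 97, 77, 1, 0], [7, 97, 78, 1, 0],
  [7, 97, 79, 1, 0], [7, 97, 80, 1, 0], [4, 152, 152, 1, 0], [7, 97, 82, 1, 0], [7, 97, 83, 1, 0],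
  [6, 109, 109, 1, 0], [7, 97, 85, 1, 0], [4, 153, 153, 1, 0], [7, 97, 87, 1, 0],
  [7, 97, 88, 1, 0], [7, 97, 89, 1, 0], [7, 97, 90, 1, 0], [7, 97, 91, 1, 0], [7, 97, 92, 1, 0],
  [7, 97, 93, 1, 0], [7, 97, 94, 1, 0], [7, 97, 95, 1, 0], [4, 155, 155, 1, 0], [7, 97, 97, 1, 0],
  [7, 99, 84, 1, 0], [7, 99, 85, 1, 0], [7, 101, 72, 1, 0], [7, 99, 87, 1, 0], [7, 99, 88, 1, 0],
  [7, 99, 89, 1, 0], [7, 99, 90, 1, 0], [6, 112, 112, 1, 0], [4, 157, 157, 1, 0],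
  [7, 99, 93, 1, 0], [7, 99, 94, 1, 0], [7, 99, 95, 1, 0], [7, 99, 96, 1, 0], [7, 99, 97, 1, 0],
  [6, 113, 113, 1, 0], [7, 99, 99, 1, 0], [7, 103, 72, 1, 0], [7, 101, 87, 1, 0],
  [7, 101, 88, 1, 0], [7, 101, 89, 1, 0], [7, 101, 90, 1, 0], [7, 101, 91, 1, 0],
  [7, 101, 92, 1, 0], [4, 160, 160, 1, 0], [7, 101, 94, 1, 0], [7, 101, 95, 1, 0],
  [7, 101, 96, 1, 0], [7, 101, 97, 1, 0], [4, 161, 161, 1, 0], [7, 101, 99, 1, 0],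
  [7, 101, 100, 1, 0], [7, 101, 101, 1, 0], [7, 103, 88, 1, 0], [7, 103, 89, 1, 0],
  [7, 103, 90, 1, 0], [7, 103, 91, 1, 0], [7, 103, 92, 1, 0], [7, 103, 93, 1, 0],
  [4, 163, 163, 1, 0], [7, 103, 95, 1, 0], [7, 103, 96, 1, 0], [7, 103, 97, 1, 0],
  [6, 117, 117, 1, 0], [4, 164, 164, 1, 0], [7, 103, 100, 1, 0], [7, 103, 101, 1, 0],
  [7, 103, 102, 1, 0], [7, 103, 103, 1, 0], [7, 104, 97, 1, 0], [7, 104, 98, 1, 0],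
  [7, 104, 99, 1, 0], [7, 104, 100, 1, 0], [7, 104, 101, 1, 0], [7, 104, 102, 1, 0],
  [7, 104, 103, 1, 0], [7, 104, 104, 1, 0], [6, 119, 119, 1, 0], [7, 107, 85, 1, 0],
  [4, 167, 167, 1, 0], [7, 107, 87, 1, 0], [7, 107, 88, 1, 0], [7, 107, 89, 1, 0],
  [7, 107, 90, 1, 0], [7, 107, 91, 1, 0], [7, 107, 92, 1, 0], [7, 107, 93, 1, 0],
  [7, 107, 94, 1, 0], [7, 107, 95, 1, 0], [4, 169, 169, 1, 0], [7, 107, 97, 1, 0],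
  [6, 121, 121, 1, 0], [7, 107, 99, 1, 0], [7, 107, 100, 1, 0], [7, 107, 101, 1, 0],
  [7, 107, 102, 1, 0], [7, 107, 103, 1, 0], [7, 107, 104, 1, 0], [7, 107, 105, 1, 0],
  [4, 171, 171, 1, 0], [7, 107, 107, 1, 0], [7, 109, 94, 1, 0], [7, 109, 95, 1, 0],
  [7, 109, 96, 1, 0], [4, 172, 172, 1, 0], [7, 109, 98, 1, 0], [7, 109, 99, 1, 0],
  [7, 109, 100, 1, 0], [7, 109, 101, 1, 0], [4, 173, 173, 1, 0], [7, 109, 103, 1, 0],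
  [7, 109, 104, 1, 0], [7, 109, 105, 1, 0], [7, 109, 106, 1, 0], [7, 109, 107, 1, 0],
  [7, 109, 108, 1, 0], [7, 109, 109, 1, 0], [7, 112, 89, 1, 0], [7, 112, 90, 1, 0],
  [4, 175, 175, 1, 0], [7, 112, 92, 1, 0], [7, 112, 93, 1, 0], [7, 112, 94, 1, 0],
  [7, 112, 95, 1, 0], [4, 176, 176, 1, 0], [7, 112, 97, 1, 0], [7, 112, 98, 1, 0],
  [7, 112, 99, 1, 0], [7, 112, 100, 1, 0], [7, 112, 101, 1, 0], [7, 112, 102, 1, 0],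
  [7, 112, 103, 1, 0], [7, 112, 104, 1, 0], [6, 127, 127, 1, 0], [7, 112, 106, 1, 0],
  [7, 112, 107, 1, 0], [7, 112, 108, 1, 0], [7, 112, 109, 1, 0], [7, 112, 110, 1, 0],
  [4, 179, 179, 1, 0], [6, 128, 128, 1, 0], [7, 113, 106, 1, 0], [7, 113, 107, 1, 0],
  [7, 113, 108, 1, 0], [4, 180, 180, 1, 0], [7, 113, 110, 1, 0], [7, 113, 111, 1, 0],
  [7, 113, 112, 1, 0], [7, 113, 113, 1, 0], [4, 181, 181, 1, 0], [7, 117, 87, 1, 0],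
  [7, 117, 88, 1, 0], [7, 117, 89, 1, 0], [7, 117, 90, 1, 0], [7, 117, 91, 1, 0],
  [7, 117, 92, 1, 0], [7, 117, 93, 1, 0], [7, 117, 94, 1, 0], [7, 117, 95, 1, 0],
  [7, 117, 96, 1, 0], [7, 117, 97, 1, 0], [6, 131, 131, 1, 0], [7, 117, 99, 1, 0],
  [7, 117, 100, 1, 0], [4, 184, 184, 1, 0], [7, 117, 102, 1, 0], [7, 117, 103, 1, 0],
  [7, 117, 104, 1, 0], [7, 117, 105, 1, 0], [4, 185, 185, 1, 0], [7, 117, 107, 1, 0],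
  [7, 117, 108, 1, 0], [7, 117, 109, 1, 0], [7, 117, 110, 1, 0], [7, 117, 111, 1, 0],
  [6, 133, 133, 1, 0], [7, 117, 113, 1, 0], [7, 117, 114, 1, 0], [7, 117, 115, 1, 0],
  [4, 187, 187, 1, 0], [7, 117, 117, 1, 0], [7, 119, 104, 1, 0], [7, 119, 105, 1, 0],
  [7, 119, 106, 1, 0], [4, 188, 188, 1, 0], [7, 119, 108, 1, 0], [7, 119, 109, 1, 0],
  [7, 119, 110, 1, 0], [7, 119, 111, 1, 0], [4, 189, 189, 1, 0], [7, 119, 113, 1, 0],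
  [7, 119, 114, 1, 0], [7, 119, 115, 1, 0], [7, 119, 116, 1, 0], [7, 119, 117, 1, 0],
  [7, 119, 118, 1, 0], [6, 136, 136, 1, 0], [7, 121, 106, 1, 0], [7, 121, 107, 1, 0],
  [4, 191, 191, 1, 0], [7, 121, 109, 1, 0], [7, 121, 110, 1, 0], [7, 121, 111, 1, 0],
  [6, 137, 137, 1, 0], [7, 121, 113, 1, 0], [7, 121, 114, 1, 0], [7, 121, 115, 1, 0],
  [7, 121, 116, 1, 0], [7, 121, 117, 1, 0], [4, 193, 193, 1, 0], [7, 121, 119, 1, 0],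
  [7, 121, 120, 1, 0], [7, 121, 121, 1, 0], [7, 125, 94, 1, 0], [7, 125, 95, 1, 0],
  [7, 125, 96, 1, 0], [7, 125, 97, 1, 0], [6, 139, 139, 1, 0], [7, 125, 99, 1, 0],
  [7, 125, 100, 1, 0], [7, 125, 101, 1, 0], [7, 125, 102, 1, 0], [7, 125, 103, 1, 0],
  [7, 125, 104, 1, 0], [4, 196, 196, 1, 0], [7, 125, 106, 1, 0], [7, 125, 107, 1, 0],
  [7, 125, 108, 1, 0], [7, 125, 109, 1, 0], [4, 197, 197, 1, 0], [7, 125, 111, 1, 0],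
  [7, 125, 112, 1, 0], [7, 125, 113, 1, 0], [7, 125, 114, 1, 0], [7, 125, 115, 1, 0],
  [7, 125, 116, 1, 0], [7, 125, 117, 1, 0], [7, 125, 118, 1, 0], [7, 125, 119, 1, 0],
  [4, 199, 199, 1, 0], [7, 125, 121, 1, 0], [7, 125, 122, 1, 0], [7, 125, 123, 1, 0],
  [7, 125, 124, 1, 0], [4, 200, 200, 1, 0], [6, 143, 143, 1, 0], [7, 127, 113, 1, 0],
  [7, 127, 114, 1, 0], [7, 127, 115, 1, 0], [7, 127, 116, 1, 0], [7, 127, 117, 1, 0],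
  [7, 127, 118, 1, 0], [6, 144, 144, 1, 0], [7, 127, 120, 1, 0], [7, 127, 121, 1, 0],
  [7, 127, 122, 1, 0], [7, 127, 123, 1, 0], [7, 127, 124, 1, 0], [7, 127, 125, 1, 0],
  [4, 203, 203, 1, 0], [7, 127, 127, 1, 0], [7, 128, 121, 1, 0], [7, 128, 122, 1, 0],
  [7, 128, 123, 1, 0], [7, 128, 124, 1, 0], [7, 128, 125, 1, 0], [7, 128, 126, 1, 0],
  [7, 128, 127, 1, 0]]

theorem recs_ok : listOK dat 0 recs = true := by decide +kernel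

theorem md_of_not_mem : ∀ n, n ∉ exc → Md (Fin n) :=
  md_all (us := [0, 1, 5, 7, 8, 11, 17, 19, 21, 23, 25, 27, 29, 31, 32, 33, 35, 36, 37, 40, 41, 43, 45, 48, 50, 51, 53, 54, 55, 56, 57, 64, 67, 70, 72, 74, 80, 82, 84, 88, 90, 94, 96, 100, 102, 104, 108, 114, 118, 128])
    (L := 87) (U := 128) (N := 1024) (by decide +kernel) (by norm_num) (by norm_num) (by norm_num)
    fun m hm => md_of_list dat_good recs 0 recs_ok (fun _ h => absurd h (Nat.not_lt_zero _)) m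
      (lt_of_lt_of_eq hm (by decide +kernel))

end Pool.Agent.Lib.MP_0d0fd2_co
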