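import Pool.Agent.Lib.MP_0d0fd2_co.CloAll
import Pool.Agent.Lib.MP_0d0fd2_co.CloQ1
import Pool.Agent.Lib.MP_0d0fd2_co.CloQ2

/-! Models that need not be idempotent. -/

namespace Pool.Agent.Lib.MP_0d0fd2_co

theorem md2_exc : ∀ n ∈ exc, n ∉ ([2, 6, 10, 14, 18, 26, 30, 42] : List ℕ) → Md2 (Fin n) := by
  simp only [exc, List.forall_mem_cons, List.not_mem_nil, false_imp_iff, implies_true, and_true]
  exact ⟨fun h => absurd (by decide) h,
    fun _ => md2_three,
    fun _ => md2_four,
    fun h => absurd (by decide) h,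
    fun _ => (md2_three.mul md2_three),
    fun h => absurd (by decide) h,
    fun _ => (md2_three.mul md2_four),
    fun _ => md2_thirteen,
    fun h => absurd (by decide) h,
    fun _ => (md2_three.mul (md_of_not_mem 5 (by decide)).md2),
    fun _ => (md2_four.mul md2_four),
    fun h => absurd (by decide) h,
    fun _ => (md2_four.mul (md_of_not_mem 5 (by decide)).md2),
    fun _ => mdN22,
    fun _ => (md2_three.mul (md_of_not_mem 8 (by decide)).md2),
    fun h => absurd (by decide) h,
    fun _ => (md2_four.mul (md_of_not_mem 7 (by decide)).md2),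
    fun h => absurd (by decide) h,
    fun _ => mdN34,
    fun _ => mdN38,
    fun _ => (md2_three.mul md2_thirteen),
    fun h => absurd (by decide) h,
    fun _ => (md2_four.mul (md_of_not_mem 11 (by decide)).md2),
    fun _ => mdN46,
    fun _ => (md2_four.mul md2_thirteen),
    fun _ => mdN58,
    fun _ => (md2_three.mul (md2_four.mul (md_of_not_mem 5 (by decide)).md2)),
    fun _ => mdN62,
    fun _ => (md2_three.mul mdN22),
    fun _ => (md2_four.mul (md_of_not_mem 17 (by decide)).md2),
    fun _ => (md2_four.mul (md_of_not_mem 19 (by decide)).md2),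
    fun _ => mdN86⟩

theorem md2_of_not_mem (n : ℕ) (hn : n ∉ ([2, 6, 10, 14, 18, 26, 30, 42] : List ℕ)) : Md2 (Fin n) := by
  by_cases h : n ∈ exc
  · exact md2_exc n h hn
  · exact (md_of_not_mem n h).md2

theorem Md2.latin {n : ℕ} (h : Md2 (Fin n)) : ∃ op : Fin n → Fin n → Fin n,
    (∀ a b, ∃! x, op a x = b) ∧ (∀ a b, ∃! x, op x a = b) ∧ ∀ x y, op (op (op y x) y) y = x := by
  obtain ⟨op, h2⟩ := h
  refine ⟨op, fun a => ?_, fun a => ?_, h2⟩
  · have hi : Function.Injective (op a) := fun x x' h => by rw [← h2 x a, h, h2]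
    exact (Function.bijective_iff_existsUnique _).1 hi.bijective_of_finite
  · have hs : Function.Surjective (fun x => op x a) := fun x => ⟨_, h2 x a⟩
    exact (Function.bijective_iff_existsUnique _).1 hs.bijective_of_finite

end Pool.Agent.Lib.MP_0d0fd2_co
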