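import Mathlib

/-! Partly defined models of the identity `((y x) y) y = x`, gluing and filling of holes. -/

namespace Pool.Agent.Lib.MP_0d0fd2_co

open Fintype

/-- A model of the identity on the set `ρ` of ordered pairs. -/
def PM {X : Type} (ρ : X → X → Prop) : Prop :=
  ∃ op : X → X → X, ∀ x y, ρ y x →
    ρ (op y x) y ∧ ρ (op (op y x) y) y ∧ op (op (op y x) y) y = x

/-- An idempotent model on `X`. -/
def Md (X : Type) : Prop :=
  ∃ op : X → X → X, (∀ x, op x x = x) ∧ ∀ x y, op (op (op y x) y) y = x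

/-- A model on `X`. -/
def Md2 (X : Type) : Prop := ∃ op : X → X → X, ∀ x y, op (op (op y x) y) y = x

/-- A model with holes: the fibres of `g`. -/
def HM {X L : Type} (g : X → L) : Prop := PM fun x y => g x ≠ g y

theorem PM.congr {X : Type} {ρ σ : X → X → Prop} (h : PM ρ) (e : ∀ x y, ρ x y ↔ σ x y) : PM σ := by
  have : ρ = σ := by funext x y; exact propext (e x y)
  rwa [← this]

theorem pm_false {X : Type} {ρ : X → X → Prop} (h : ∀ x y, ¬ ρ x y) : PM ρ :=
  ⟨fun x _ => x, fun x y hxy => absurd hxy (h y x)⟩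

theorem PM.union {X B : Type} (ρ : B → X → X → Prop) (h : ∀ b, PM (ρ b))
    (hu : ∀ b b' x y, ρ b x y → ρ b' x y → b = b') : PM fun x y => ∃ b, ρ b x y := by
  classical
  choose op hop using h
  have key : ∀ b x y, ρ b x y →
      (if h : ∃ b, ρ b x y then op h.choose x y else x) = op b x y := by
    intro b x y hb
    have h' : ∃ b, ρ b x y := ⟨b, hb⟩
    rw [dif_pos h', hu _ _ _ _ h'.choose_spec hb]
  refine ⟨fun x y => if h : ∃ b, ρ b x y then op h.choose x y else x, ?_⟩
  rintro x y ⟨b, hb⟩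
  obtain ⟨h1, h2, h3⟩ := hop b x y hb
  simp only [key b y x hb, key b _ y h1, key b _ y h2]
  exact ⟨⟨b, h1⟩, ⟨b, h2⟩, h3⟩

theorem PM.push {X Y : Type} {ρ : Y → Y → Prop} (h : PM ρ) (j : Y → X)
    (hj : Function.Injective j) : PM fun x y => ∃ p q, j p = x ∧ j q = y ∧ ρ p q := by
  classical
  obtain ⟨op, hop⟩ := h
  have key : ∀ p q, (if h : ∃ t : Y × Y, j t.1 = j p ∧ j t.2 = j q then
      j (op h.choose.1 h.choose.2) else j p) = j (op p q) := by
    intro p q
    have h' : ∃ t : Y × Y, j t.1 = j p ∧ j t.2 = j q := ⟨(p, q), rfl, rfl⟩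
    rw [dif_pos h', hj h'.choose_spec.1, hj h'.choose_spec.2]
  refine ⟨fun x y => if h : ∃ t : Y × Y, j t.1 = x ∧ j t.2 = y then
    j (op h.choose.1 h.choose.2) else x, ?_⟩
  rintro x y ⟨p, q, rfl, rfl, hpq⟩
  obtain ⟨h1, h2, h3⟩ := hop q p hpq
  simp only [key]
  exact ⟨⟨_, _, rfl, rfl, h1⟩, ⟨_, _, rfl, rfl, h2⟩, by rw [h3]⟩

theorem PM.equiv {X Y : Type} {ρ : Y → Y → Prop} {σ : X → X → Prop} (h : PM ρ) (e : Y ≃ X)
    (he : ∀ p q, ρ p q ↔ σ (e p) (e q)) : PM σ := by
  refine (h.push e e.injective).congr fun x y => ⟨?_, fun hs => ?_⟩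
  · rintro ⟨p, q, rfl, rfl, hpq⟩
    exact (he p q).1 hpq
  · exact ⟨e.symm x, e.symm y, by simp, by simp, (he _ _).2 (by simpa using hs)⟩

theorem md_iff {X : Type} : Md X ↔ PM fun x y : X => x ≠ y := by
  classical
  constructor
  · rintro ⟨op, h1, h2⟩
    refine ⟨op, fun x y hxy => ⟨fun h => hxy ?_, fun h => hxy ?_, h2 x y⟩⟩
    · have := h2 x y
      rw [h, h1, h1] at this
      exact this
    · have := h2 x y
      rw [h, h1] at this
      exact this
  · rintro ⟨op, h⟩
    refine ⟨fun x y => if x = y then x else op x y, fun x => by simp, fun x y => ?_⟩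
    by_cases hxy : y = x
    · simp [hxy]
    · obtain ⟨h1, h2, h3⟩ := h x y hxy
      simp only [if_neg hxy, if_neg h1, if_neg h2, h3]

theorem Md.equiv {X Y : Type} (h : Md Y) (e : Y ≃ X) : Md X :=
  md_iff.2 ((md_iff.1 h).equiv e fun p q => by simp)

theorem Md.of_fin {X : Type} [Fintype X] {n : ℕ} (h : Md (Fin n)) (hn : card X = n) : Md X :=
  h.equiv (equivFinOfCardEq hn).symm

theorem Md.fin {X : Type} [Fintype X] {n : ℕ} (h : Md X) (hn : card X = n) : Md (Fin n) :=
  h.equiv (equivFinOfCardEq hn)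

theorem md_subsingleton {X : Type} [Subsingleton X] : Md X :=
  ⟨fun x _ => x, fun _ => rfl, fun _ _ => Subsingleton.elim _ _⟩

theorem Md.md2 {X : Type} (h : Md X) : Md2 X := by
  obtain ⟨op, -, h⟩ := h
  exact ⟨op, h⟩

theorem Md2.equiv {X Y : Type} (h : Md2 Y) (e : Y ≃ X) : Md2 X := by
  obtain ⟨op, h⟩ := h
  exact ⟨fun x y => e (op (e.symm x) (e.symm y)), fun x y => by simp [h]⟩

theorem Md2.prod {X Y : Type} (h : Md2 X) (h' : Md2 Y) : Md2 (X × Y) := by
  obtain ⟨op, h⟩ := h
  obtain ⟨op', h'⟩ := h'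
  exact ⟨fun p q => (op p.1 q.1, op' p.2 q.2), fun x y => by simp [h, h']⟩

theorem Md2.mul {a b : ℕ} (h : Md2 (Fin a)) (h' : Md2 (Fin b)) : Md2 (Fin (a * b)) :=
  (h.prod h').equiv finProdFinEquiv

/-- Inflation by a model. -/
theorem HM.inflate {X L W : Type} {g : X → L} (h : HM g) (h' : Md2 W) :
    HM fun p : X × W => g p.1 := by
  obtain ⟨op, h⟩ := h
  obtain ⟨op', h'⟩ := h'
  refine ⟨fun p q => (op p.1 q.1, op' p.2 q.2), fun x y hxy => ?_⟩
  obtain ⟨h1, h2, h3⟩ := h x.1 y.1 hxy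
  exact ⟨h1, h2, Prod.ext h3 (h' _ _)⟩

/-- `k` holes of size `t`. -/
def Hol (t k : ℕ) : Prop := HM (Prod.fst : Fin k × Fin t → Fin k)

theorem hol_of_md {t k : ℕ} (h : Md (Fin k)) (h' : Md2 (Fin t)) : Hol t k :=
  HM.inflate (g := id) (md_iff.1 h) h'

theorem Hol.mul {t k s : ℕ} (h : Hol t k) (h' : Md2 (Fin s)) : Hol (t * s) k :=
  PM.equiv (HM.inflate h h')
    ((Equiv.prodAssoc _ _ _).trans (Equiv.prodCongr (Equiv.refl _) finProdFinEquiv))
    fun p q => by simp

theorem Hol.of_fin {t k : ℕ} (h : Hol t k) {K : Type} [Fintype K] (hk : card K = k) :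
    HM (Prod.fst : K × Fin t → K) :=
  PM.equiv h (Equiv.prodCongr (equivFinOfCardEq hk).symm (Equiv.refl _)) fun p q => by simp

/-- A model of order `h + e` with one hole of size `e` (and the diagonal left out). -/
def Inc (h e : ℕ) : Prop := HM (Sum.getLeft? : Fin h ⊕ Fin e → Option (Fin h))

theorem inc_iff {A B A' B' : Type} (e : A ≃ A') (f : B ≃ B')
    (h : HM (Sum.getLeft? : A ⊕ B → Option A)) : HM (Sum.getLeft? : A' ⊕ B' → Option A') :=
  PM.equiv h (Equiv.sumCongr e f) fun p q => by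
    rcases p with p | p <;> rcases q with q | q <;> simp

theorem inc_of_md {h e : ℕ} (he : e ≤ 1) (hm : Md (Fin (h + e))) : Inc h e := by
  have : Subsingleton (Fin e) := Fin.subsingleton_iff_le_one.2 he
  refine PM.equiv (md_iff.1 hm) finSumFinEquiv.symm fun p q => ?_
  rw [← finSumFinEquiv.symm.injective.ne_iff]
  generalize finSumFinEquiv.symm p = a
  generalize finSumFinEquiv.symm q = b
  rcases a with a | a <;> rcases b with b | b <;> simp
  exact Subsingleton.elim _ _

theorem Inc.md {h e : ℕ} (hi : Inc h e) (hm : Md (Fin e)) : Md (Fin (h + e)) := by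
  refine Md.equiv (Y := Fin h ⊕ Fin e) (md_iff.2 ?_) finSumFinEquiv
  have h2 := (md_iff.1 hm).push (Sum.inr : Fin e → Fin h ⊕ Fin e) Sum.inr_injective
  refine (PM.union (B := Bool) (fun b x y => if b then x.getLeft? ≠ y.getLeft? else
    ∃ p q, Sum.inr p = x ∧ Sum.inr q = y ∧ p ≠ q) ?_ ?_).congr ?_
  · rintro (_ | _)
    · simpa using h2
    · simpa [Inc, HM] using hi
  · rintro (_ | _) (_ | _) x y h1 h2
    · rfl
    · obtain ⟨p, q, rfl, rfl, -⟩ := h1
      simp at h2
    · obtain ⟨p, q, rfl, rfl, -⟩ := h2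
      simp at h1
    · rfl
  · rintro (x | x) (y | y) <;> simp

/-- A model with holes indexed by `L`, of sizes `f l`. -/
def Fr {L : Type} (f : L → ℕ) : Prop :=
  ∃ (X : Type) (_ : Fintype X) (g : X → L), HM g ∧ ∀ l, Nat.card {x // g x = l} = f l

theorem Hol.fr {t k : ℕ} (h : Hol t k) : Fr fun _ : Fin k => t := by
  refine ⟨_, inferInstance, _, h, fun l => ?_⟩
  have e : {x : Fin k × Fin t // x.1 = l} ≃ Fin t :=
    ⟨fun x => x.1.2, fun w => ⟨(l, w), rfl⟩, by rintro ⟨⟨a, w⟩, rfl⟩; rfl, fun w => rfl⟩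
  rw [Nat.card_congr e]
  simp

/-- Filling all holes but one, with `e` new points. -/
theorem Fr.fill {L : Type} [Fintype L] [DecidableEq L] {f : L → ℕ} (h : Fr f) (l0 : L) (e : ℕ)
    (hI : ∀ l, l ≠ l0 → Inc (f l) e) : Inc (∑ l ∈ Finset.univ.erase l0, f l) (f l0 + e) := by
  classical
  obtain ⟨X, _, g, hg, hf⟩ := h
  have hc : ∀ l, card {x // g x = l} = f l := fun l => by rw [← hf l, Nat.card_eq_fintype_card]
  have hI' : ∀ l, l ≠ l0 →
      HM (Sum.getLeft? : {x // g x = l} ⊕ Fin e → Option {x // g x = l}) := fun l hl =>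
    inc_iff (equivFinOfCardEq (hc l)).symm (Equiv.refl _) (hI l hl)
  let lab : X ⊕ Fin e → Option X := fun p =>
    match p with
    | Sum.inl x => if g x = l0 then none else some x
    | Sum.inr _ => none
  let ρ : Option L → X ⊕ Fin e → X ⊕ Fin e → Prop := fun b x y =>
    match b with
    | none => ∃ p q, Sum.inl p = x ∧ Sum.inl q = y ∧ g p ≠ g q
    | some l => l ≠ l0 ∧ ∃ p q : {x // g x = l} ⊕ Fin e, Sum.map Subtype.val id p = x ∧
        Sum.map Subtype.val id q = y ∧ p.getLeft? ≠ q.getLeft?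
  have h1 : PM fun x y => lab x ≠ lab y := by
    refine (PM.union ρ ?_ ?_).congr ?_
    · rintro (_ | l)
      · exact PM.push hg Sum.inl Sum.inl_injective
      · by_cases hl : l = l0
        · exact pm_false fun x y hh => hh.1 hl
        · exact (PM.push (hI' l hl) (Sum.map Subtype.val id)
            (Subtype.val_injective.sumMap Function.injective_id)).congr fun x y =>
              ⟨fun hh => ⟨hl, hh⟩, fun hh => hh.2⟩
    · rintro (_ | l) (_ | l') x y h1 h2
      · rfl
      · obtain ⟨p, q, rfl, rfl, hpq⟩ := h1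
        obtain ⟨-, (⟨a, ha⟩ | a), (⟨b, hb⟩ | b), e1, e2, -⟩ := h2 <;> simp at e1 e2
        subst e1 e2
        exact absurd (ha.trans hb.symm) hpq
      · obtain ⟨p, q, rfl, rfl, hpq⟩ := h2
        obtain ⟨-, (⟨a, ha⟩ | a), (⟨b, hb⟩ | b), e1, e2, -⟩ := h1 <;> simp at e1 e2
        subst e1 e2
        exact absurd (ha.trans hb.symm) hpq
      · obtain ⟨-, (⟨a, ha⟩ | a), (⟨b, hb⟩ | b), rfl, rfl, hab⟩ := h1 <;>
        obtain ⟨-, (⟨a', ha'⟩ | a'), (⟨b', hb'⟩ | b'), e1, e2, hab'⟩ := h2 <;>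
        simp at e1 e2 hab hab' <;> subst_vars <;> rfl
    · rintro (x | x) (y | y)
      · constructor
        · rintro ⟨_ | l, hb⟩
          · obtain ⟨p, q, e1, e2, hpq⟩ := hb
            simp at e1 e2
            subst e1 e2
            simp only [lab]
            split_ifs with a b b
            · exact absurd (a.trans b.symm) hpq
            · simp
            · simp
            · intro hh
              exact hpq (by rw [Option.some.inj hh])
          · obtain ⟨hl, (⟨a, ha⟩ | a), (⟨b, hb⟩ | b), e1, e2, hab⟩ := hb <;> simp at e1 e2 hab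
            subst e1 e2
            simp only [lab, ha, hb, if_neg hl]
            simpa using hab
        · intro hh
          by_cases hxy : g x = g y
          · have hl : g x ≠ l0 := by
              intro h0
              simp [lab, h0, ← hxy] at hh
            refine ⟨some (g x), hl, Sum.inl ⟨x, rfl⟩, Sum.inl ⟨y, hxy.symm⟩, rfl, rfl, ?_⟩
            simpa [lab, hl, ← hxy] using hh
          · exact ⟨none, x, y, rfl, rfl, hxy⟩
      · constructor
        · rintro ⟨_ | l, hb⟩
          · obtain ⟨p, q, e1, e2, hpq⟩ := hb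
            simp at e2
          · obtain ⟨hl, (⟨a, ha⟩ | a), (⟨b, hb⟩ | b), e1, e2, hab⟩ := hb <;> simp at e1 e2 hab
            subst e1
            simp [lab, ha, hl]
        · intro hh
          have hl : g x ≠ l0 := by
            intro h0
            simp [lab, h0] at hh
          exact ⟨some (g x), hl, Sum.inl ⟨x, rfl⟩, Sum.inr y, rfl, rfl, by simp⟩
      · constructor
        · rintro ⟨_ | l, hb⟩
          · obtain ⟨p, q, e1, e2, hpq⟩ := hb
            simp at e1
          · obtain ⟨hl, (⟨a, ha⟩ | a), (⟨b, hb⟩ | b), e1, e2, hab⟩ := hb <;> simp at e1 e2 hab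
            subst e2
            simp [lab, hb, hl]
        · intro hh
          have hl : g y ≠ l0 := by
            intro h0
            simp [lab, h0] at hh
          exact ⟨some (g y), hl, Sum.inr x, Sum.inl ⟨y, rfl⟩, rfl, rfl, by simp⟩
      · constructor
        · rintro ⟨_ | l, hb⟩
          · obtain ⟨p, q, e1, e2, hpq⟩ := hb
            simp at e1
          · obtain ⟨hl, (⟨a, ha⟩ | a), (⟨b, hb⟩ | b), e1, e2, hab⟩ := hb <;> simp at e1 e2 hab
        · intro hh
          simp [lab] at hh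
  have h2 : HM (Sum.getLeft? : {x // ¬ g x = l0} ⊕ ({x // g x = l0} ⊕ Fin e) →
      Option {x // ¬ g x = l0}) := by
    let E : {x // ¬ g x = l0} ⊕ ({x // g x = l0} ⊕ Fin e) ≃ X ⊕ Fin e :=
      (Equiv.sumAssoc _ _ _).symm.trans (Equiv.sumCongr
        ((Equiv.sumComm _ _).trans (Equiv.sumCompl fun x => g x = l0)) (Equiv.refl _))
    refine PM.equiv h1 E.symm fun p q => ?_
    obtain ⟨p, rfl⟩ := E.surjective p
    obtain ⟨q, rfl⟩ := E.surjective q
    simp only [Equiv.symm_apply_apply]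
    rcases p with ⟨a, ha⟩ | ⟨a, ha⟩ | a <;> rcases q with ⟨b, hb⟩ | ⟨b, hb⟩ | b <;>
      simp [E, lab, *]
  refine inc_iff (equivFinOfCardEq ?_) (equivFinOfCardEq ?_) h2
  · have h3 : card X = ∑ l, f l := by
      rw [← card_congr (Equiv.sigmaFiberEquiv g), card_sigma]
      exact Finset.sum_congr rfl fun l _ => hc l
    rw [card_subtype_compl, h3, hc l0, ← Finset.add_sum_erase _ _ (Finset.mem_univ l0)]
    omega
  · rw [card_sum, hc l0, card_fin]

end Pool.Agent.Lib.MP_0d0fd2_co
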