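import Pool.Agent.Lib.MP_0d0fd2_co.CloChk

/-! Checking a large table that is stored in pieces. -/

namespace Pool.Agent.Lib.MP_0d0fd2_co

def cellF (f : ℕ → ℕ → ℕ) (n x y : ℕ) : Bool :=
  Nat.blt (f y x) n && Nat.beq (f (f (f y x) y) y) x

def rowF (f : ℕ → ℕ → ℕ) (n x : ℕ) : Bool := Nat.beq (f x x) x && allLt (cellF f n x) n

def chkF (f : ℕ → ℕ → ℕ) (n a c : ℕ) : Bool := allLt (fun i => rowF f n (a + i)) c

theorem md_of_chkF {f : ℕ → ℕ → ℕ} {n a c : ℕ} (h : chkF f n 0 a = true)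
    (h' : chkF f n a c = true) (hn : n ≤ a + c) : Md (Fin n) := by
  have hr : ∀ x < n, f x x = x ∧ ∀ y < n, f y x < n ∧ f (f (f y x) y) y = x := by
    intro x hx
    have h1 : rowF f n x = true := by
      by_cases hxa : x < a
      · simpa using allLt_spec h x hxa
      · have := allLt_spec h' (x - a) (by omega)
        rwa [show a + (x - a) = x by omega] at this
    rw [rowF, Bool.and_eq_true] at h1
    refine ⟨Nat.eq_of_beq_eq_true h1.1, fun y hy => ?_⟩
    have h2 := allLt_spec h1.2 y hy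
    rw [cellF, Bool.and_eq_true] at h2
    exact ⟨by simpa [Nat.blt_eq] using h2.1, Nat.eq_of_beq_eq_true h2.2⟩
  exact ⟨fun y x => ⟨f y x, ((hr x x.2).2 y y.2).1⟩, fun x => Fin.ext (hr x x.2).1,
    fun x y => Fin.ext ((hr x x.2).2 y y.2).2⟩

end Pool.Agent.Lib.MP_0d0fd2_co
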