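import Pool.Agent.Lib.MP_0d0fd2_co.CloTD
import Pool.Agent.Lib.MP_0d0fd2_co.Chk

/-! Checking tables with holes, and small models. -/

namespace Pool.Agent.Lib.MP_0d0fd2_co

/-- Entry `(x, y)` of a table packed with `b` bits per entry. -/
def lk (T n b x y : ℕ) : ℕ := Nat.land (Nat.shiftRight T (b * (x * n + y))) (2 ^ b - 1)

def cellR (T n b : ℕ) (rel : ℕ → ℕ → Bool) (x y : ℕ) : Bool :=
  !rel y x || (Nat.blt (lk T n b y x) n && (Nat.blt (lk T n b (lk T n b y x) y) n &&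
    (rel (lk T n b y x) y && (rel (lk T n b (lk T n b y x) y) y &&
      Nat.beq (lk T n b (lk T n b (lk T n b y x) y) y) x))))

def chkR (T n b : ℕ) (rel : ℕ → ℕ → Bool) : Bool :=
  allLt (fun x => allLt (cellR T n b rel x) n) n

theorem pm_of_chk {T n b : ℕ} {rel : ℕ → ℕ → Bool} (h : chkR T n b rel = true) :
    PM fun x y : Fin n => rel x y = true := by
  refine ⟨fun x y => if h : lk T n b x y < n then ⟨lk T n b x y, h⟩ else x, fun x y hxy => ?_⟩
  have h1 := allLt_spec (allLt_spec h x x.2) y y.2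
  simp only [cellR, hxy, Bool.not_true, Bool.false_or, Bool.and_eq_true, Nat.blt_eq] at h1
  obtain ⟨a1, a2, a3, a4, a5⟩ := h1
  have a6 := Nat.eq_of_beq_eq_true a5
  simp only [dif_pos a1, dif_pos a2, a6, dif_pos x.2]
  exact ⟨a3, a4, trivial⟩

theorem md_of_chk {T n b : ℕ} (h : chkR T n b (fun x y => !Nat.beq x y) = true) : Md (Fin n) :=
  md_iff.2 ((pm_of_chk h).congr fun x y => by
    rw [Bool.not_eq_true', ← Bool.not_eq_true, Nat.beq_eq, Ne, Fin.ext_iff])

theorem md2_of_chk {T n b : ℕ} (h : chkR T n b (fun _ _ => true) = true) : Md2 (Fin n) := by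
  obtain ⟨op, h⟩ := pm_of_chk h
  exact ⟨op, fun x y => (h x y rfl).2.2⟩

theorem hol_of_chk {T t k b : ℕ}
    (h : chkR T (k * t) b (fun x y => !Nat.beq (x / t) (y / t)) = true) : Hol t k := by
  refine (pm_of_chk h).equiv finProdFinEquiv.symm fun p q => ?_
  rw [Bool.not_eq_true', ← Bool.not_eq_true, Nat.beq_eq, Ne, Fin.ext_iff]
  rfl

theorem inc_of_chk {T h e b : ℕ}
    (hc : chkR T (h + e) b (fun x y => !Nat.beq x y && (Nat.blt x h || Nat.blt y h)) = true) :
    Inc h e := by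
  refine (pm_of_chk hc).equiv finSumFinEquiv.symm fun p q => ?_
  obtain ⟨p, rfl⟩ := finSumFinEquiv.surjective p
  obtain ⟨q, rfl⟩ := finSumFinEquiv.surjective q
  simp only [Equiv.symm_apply_apply, Bool.and_eq_true, Bool.not_eq_true', ← Bool.not_eq_true,
    Nat.beq_eq, Bool.or_eq_true, Nat.blt_eq]
  rcases p with p | p <;> rcases q with q | q <;> simp [Fin.ext_iff] <;> omega

theorem md_of_ex {n : ℕ} (h : Ex n) : Md (Fin n) := by
  obtain ⟨op, -, -, h1, h2⟩ := h
  exact ⟨op, h1, h2⟩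

theorem Md.ex {n : ℕ} (h : Md (Fin n)) : Ex n := by
  obtain ⟨op, h1, h2⟩ := h
  exact ex_of_identity op h1 h2

theorem md_lin {n a : ℕ} (hn : 0 < n) (h : (a ^ 3 + 1) % n = a ^ 2 % n) : Md (Fin n) := by
  have : NeZero n := ⟨hn.ne'⟩
  have h1 : ((a : ZMod n)) ^ 3 + 1 = (a : ZMod n) ^ 2 := by
    have := (ZMod.natCast_eq_natCast_iff' _ _ n).2 h
    simpa using this
  refine Md.fin (X := ZMod n) ⟨fun x y => a * x + (1 - a) * y, fun x => by ring, fun x y => ?_⟩
    (ZMod.card n)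
  linear_combination (y - x) * h1

theorem md2_lin {n a : ℕ} (hn : 0 < n) (h : (a ^ 2 + a + 1) % n = 0) : Md2 (Fin n) := by
  have : NeZero n := ⟨hn.ne'⟩
  have h1 : ((a : ZMod n)) ^ 2 + a + 1 = 0 := by
    have := (ZMod.natCast_eq_natCast_iff' (a ^ 2 + a + 1) 0 n).2 (by simpa using h)
    simpa using this
  refine Md2.equiv (Y := ZMod n) ⟨fun x y => a * (x + y), fun x y => ?_⟩
    (Fintype.equivFinOfCardEq (ZMod.card n))
  linear_combination (a * y + (a - 1) * x) * h1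

end Pool.Agent.Lib.MP_0d0fd2_co
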