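import Pool.Agent.Lib.MP_0d0fd2_co.CloChk

/-! Recipes: one step of the induction on the order. -/

namespace Pool.Agent.Lib.MP_0d0fd2_co

open Fintype

/-- Three points of one block removed from a transversal design with eight groups. -/
theorem inc_blk {m t e : ℕ} (h : TD 8 (m + 1)) (h8 : Hol t 8) (h7 : Hol t 7) (h5 : Hol t 5)
    (hI : Inc ((m + 1) * t) e) (hJ : Inc (m * t) e) :
    Inc (3 * (m * t) + 4 * ((m + 1) * t)) ((m + 1) * t + e) := by
  classical
  obtain ⟨A, Λ, hΛ⟩ := h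
  obtain ⟨a0, -⟩ := (hΛ 0 1 (by decide)).2 (0, 0)
  have hF := wfc Λ hΛ (fun i r => ¬ ((i : ℕ) < 3 ∧ r = Λ i a0)) t fun a => by
    rw [Nat.card_eq_fintype_card, card_subtype_compl, card_fin]
    by_cases ha : a = a0
    · subst ha
      have : card {i : Fin 8 // (i : ℕ) < 3 ∧ Λ i a = Λ i a} = 3 := by
        rw [card_congr (Equiv.subtypeEquivRight (q := fun i : Fin 8 => (i : ℕ) < 3) fun i => by simp)]
        decide
      rwa [this]
    · have : card {i : Fin 8 // (i : ℕ) < 3 ∧ Λ i a = Λ i a0} ≤ 1 := by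
        rw [card_le_one_iff_subsingleton]
        refine ⟨fun i j => Subtype.ext ?_⟩
        by_contra hij
        exact ha ((hΛ _ _ hij).1 (Prod.ext i.2.2 j.2.2))
      rcases Nat.le_one_iff_eq_zero_or_eq_one.1 this with h0 | h0 <;> rw [h0] <;> assumption
  have c1 : ∀ l : Fin 8, Nat.card {r : Fin (m + 1) // ¬ ((l : ℕ) < 3 ∧ r = Λ l a0)} =
      if (l : ℕ) < 3 then m else m + 1 := fun l => by
    rw [Nat.card_eq_fintype_card, card_subtype_compl, card_fin]
    split_ifs with hl <;> simp [hl]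
  simp only [c1] at hF
  have := hF.fill 7 e fun l _ => by split_ifs <;> assumption
  have h2 := Finset.add_sum_erase Finset.univ
    (fun l : Fin 8 => (if (l : ℕ) < 3 then m else m + 1) * t) (Finset.mem_univ 7)
  rw [Fin.sum_univ_eight] at h2
  have h3 : ∑ l ∈ Finset.univ.erase (7 : Fin 8), (if (l : ℕ) < 3 then m else m + 1) * t =
      3 * (m * t) + 4 * ((m + 1) * t) := by
    simp at h2 ⊢
    omega
  rw [h3] at this
  simpa using this

/-- The data: excluded orders, orders with a table, and tables with holes. -/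
structure Data where
  E : List ℕ
  B : List ℕ
  BH : List (ℕ × ℕ)
  BI : List (ℕ × ℕ)

def Data.Good (D : Data) : Prop :=
  (∀ n ∈ D.B, Md (Fin n)) ∧ (∀ p ∈ D.BH, Hol p.1 p.2) ∧ ∀ p ∈ D.BI, Inc p.1 p.2

def memB (l : List ℕ) (m : ℕ) : Bool := l.any fun e => Nat.beq e m

theorem memB_iff {l : List ℕ} {m : ℕ} : memB l m = true ↔ m ∈ l := by
  simp [memB]

def sOK (D : Data) (n m : ℕ) : Bool := Nat.blt m n && !memB D.E m

def tOK (D : Data) (n t : ℕ) : Bool :=
  sOK D n t || (memB [3, 4, 9, 12, 13, 16] t || ((Nat.beq (t % 3) 0 && sOK D n (t / 3)) ||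
    (Nat.beq (t % 4) 0 && sOK D n (t / 4))))

def hOK (D : Data) (n t k : ℕ) : Bool :=
  (sOK D n k && tOK D n t) ||
    D.BH.any fun p => Nat.beq p.2 k && (Nat.beq (t % p.1) 0 && tOK D n (t / p.1))

def ppOK (k g : ℕ) : Bool := Nat.beq g 1 || Nat.ble k (g + 1)

def tdOK (k m : ℕ) : Bool :=
  Nat.beq m 1 || (Nat.ble k 8 && (ppOK k (Nat.gcd m (2 ^ 12)) && (ppOK k (Nat.gcd m (3 ^ 8)) &&
    (ppOK k (Nat.gcd m (5 ^ 6)) &&
      (Nat.beq (m % (Nat.gcd m (2 ^ 12) * Nat.gcd m (3 ^ 8) * Nat.gcd m (5 ^ 6))) 0 &&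
        Nat.beq (Nat.gcd (m / (Nat.gcd m (2 ^ 12) * Nat.gcd m (3 ^ 8) * Nat.gcd m (5 ^ 6))) 30) 1)))))

def i0OK (D : Data) (n h e : ℕ) : Bool :=
  (Nat.ble e 1 && sOK D n (h + e)) || D.BI.any fun p => Nat.beq p.1 h && Nat.beq p.2 e

def coreOK (D : Data) (n k m u t : ℕ) : Bool :=
  tdOK (k + 1) m && (Nat.ble u m && (hOK D n t (k + 1) && (Nat.beq u m || hOK D n t k)))

def i1OK (D : Data) (n h e k m u t e0 : ℕ) : Bool :=
  i0OK D n h e || (Nat.beq h (k * (m * t)) && (Nat.beq e (u * t + e0) &&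
    (coreOK D n k m u t && i0OK D n (m * t) e0)))

/-- One recipe for the order `n`. -/
def recOK (D : Data) (n : ℕ) : List ℕ → Bool
  | [] => memB D.E n || (memB D.B n || Nat.ble n 1)
  | [a] => Nat.blt 0 n && Nat.beq ((a ^ 3 + 1) % n) (a ^ 2 % n)
  | [h, e] => Nat.beq n (h + e) && (i0OK D n h e && sOK D n e)
  | [m, t, e] => Nat.beq n (3 * (m * t) + 4 * ((m + 1) * t) + ((m + 1) * t + e)) &&
      (tdOK 8 (m + 1) && (hOK D n t 8 && (hOK D n t 7 && (hOK D n t 5 &&
        (i0OK D n ((m + 1) * t) e && (i0OK D n (m * t) e && sOK D n ((m + 1) * t + e)))))))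
  | [k, m, u, t, e] => Nat.beq n (k * (m * t) + (u * t + e)) &&
      (coreOK D n k m u t && (i0OK D n (m * t) e && sOK D n (u * t + e)))
  | [k, m, u, t, e, k', m', u', t', e'] => Nat.beq n (k * (m * t) + (u * t + e)) &&
      (coreOK D n k m u t && (i1OK D n (m * t) e k' m' u' t' e' && sOK D n (u * t + e)))
  | _ => false

theorem md2_three : Md2 (Fin 3) := md2_lin (a := 1) (by norm_num) (by norm_num)

theorem md2_four : Md2 (Fin 4) := md2_of_chk (T := 0x2d87d278) (b := 2) (by decide +kernel)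

theorem md2_thirteen : Md2 (Fin 13) := md2_lin (a := 3) (by norm_num) (by norm_num)

theorem td_of_pp {k m p s : ℕ} (hp : p.Prime) (h : ppOK k (Nat.gcd m (p ^ s)) = true) :
    TD k (Nat.gcd m (p ^ s)) := by
  obtain ⟨a, -, ha⟩ := (Nat.dvd_prime_pow hp).1 (Nat.gcd_dvd_right m (p ^ s))
  rw [ha] at h ⊢
  simp only [ppOK, Bool.or_eq_true, Nat.beq_eq, Nat.ble_eq] at h
  rcases h with h | h
  · rw [h]; exact td_one k
  · exact td_pow p a k hp (Or.inr h)

theorem td_of_ok {k m : ℕ} (h : tdOK k m = true) : TD k m := by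
  simp only [tdOK, Bool.or_eq_true, Bool.and_eq_true, Nat.beq_eq, Nat.ble_eq] at h
  rcases h with rfl | ⟨hk, h2, h3, h5, hd, hc⟩
  · exact td_one k
  · have := (((td_of_pp Nat.prime_two h2).mul (td_of_pp Nat.prime_three h3)).mul
      (td_of_pp Nat.prime_five h5)).mul ((td_coprime hc).mono hk)
    rwa [Nat.mul_div_cancel' (Nat.dvd_of_mod_eq_zero hd)] at this

section Step

variable {D : Data} {n : ℕ} (hD : D.Good) (IH : ∀ m < n, m ∉ D.E → Md (Fin m))
include IH

theorem md_of_sOK {m : ℕ} (h : sOK D n m = true) : Md (Fin m) := by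
  simp only [sOK, Bool.and_eq_true, Nat.blt_eq, Bool.not_eq_true', ← Bool.not_eq_true, memB_iff] at h
  exact IH m h.1 h.2

theorem md2_of_tOK {t : ℕ} (h : tOK D n t = true) : Md2 (Fin t) := by
  simp only [tOK, Bool.or_eq_true, Bool.and_eq_true, Nat.beq_eq, memB_iff] at h
  rcases h with h | h | ⟨h1, h2⟩ | ⟨h1, h2⟩
  · exact (md_of_sOK IH h).md2
  · simp only [List.mem_cons, List.not_mem_nil, or_false] at h
    rcases h with rfl | rfl | rfl | rfl | rfl | rfl
    · exact md2_three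
    · exact md2_four
    · exact md2_three.mul md2_three
    · exact md2_three.mul md2_four
    · exact md2_thirteen
    · exact md2_four.mul md2_four
  · have := md2_three.mul (md_of_sOK IH h2).md2
    rwa [Nat.mul_div_cancel' (Nat.dvd_of_mod_eq_zero h1)] at this
  · have := md2_four.mul (md_of_sOK IH h2).md2
    rwa [Nat.mul_div_cancel' (Nat.dvd_of_mod_eq_zero h1)] at this

include hD

theorem hol_of_hOK {t k : ℕ} (h : hOK D n t k = true) : Hol t k := by
  simp only [hOK, Bool.or_eq_true, Bool.and_eq_true, Nat.beq_eq, List.any_eq_true] at h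
  rcases h with ⟨h1, h2⟩ | ⟨p, hp, rfl, h1, h2⟩
  · exact hol_of_md (md_of_sOK IH h1) (md2_of_tOK IH h2)
  · have := (hD.2.1 p hp).mul (md2_of_tOK IH h2)
    rwa [Nat.mul_div_cancel' (Nat.dvd_of_mod_eq_zero h1)] at this

theorem inc_of_i0 {h e : ℕ} (hh : i0OK D n h e = true) : Inc h e := by
  simp only [i0OK, Bool.or_eq_true, Bool.and_eq_true, Nat.beq_eq, Nat.ble_eq,
    List.any_eq_true] at hh
  rcases hh with ⟨h1, h2⟩ | ⟨p, hp, rfl, rfl⟩
  · exact inc_of_md h1 (md_of_sOK IH h2)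
  · exact hD.2.2 p hp

theorem inc_of_core {k m u t e : ℕ} (h : coreOK D n k m u t = true) (hI : Inc (m * t) e) :
    Inc (k * (m * t)) (u * t + e) := by
  simp only [coreOK, Bool.or_eq_true, Bool.and_eq_true, Nat.beq_eq, Nat.ble_eq] at h
  obtain ⟨h1, h2, h3, h4⟩ := h
  exact inc_trunc (td_of_ok h1) h2 (hol_of_hOK hD IH h3)
    (fun hu => hol_of_hOK hD IH (h4.resolve_left hu.ne)) hI

theorem inc_of_i1 {h e k m u t e0 : ℕ} (hh : i1OK D n h e k m u t e0 = true) : Inc h e := by
  simp only [i1OK, Bool.or_eq_true, Bool.and_eq_true, Nat.beq_eq] at hh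
  rcases hh with h1 | ⟨rfl, rfl, h1, h2⟩
  · exact inc_of_i0 hD IH h1
  · exact inc_of_core hD IH h1 (inc_of_i0 hD IH h2)

theorem md_of_rec {r : List ℕ} (h : recOK D n r = true) (hn : n ∉ D.E) : Md (Fin n) := by
  unfold recOK at h
  split at h
  · simp only [Bool.or_eq_true, memB_iff, Nat.ble_eq] at h
    rcases h with h | h | h
    · exact absurd h hn
    · exact hD.1 n h
    · have : Subsingleton (Fin n) := Fin.subsingleton_iff_le_one.2 h
      exact md_subsingleton
  · simp only [Bool.and_eq_true, Nat.blt_eq, Nat.beq_eq] at h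
    exact md_lin h.1 h.2
  · simp only [Bool.and_eq_true, Nat.beq_eq] at h
    obtain ⟨h0, h1, h2⟩ := h
    have := (inc_of_i0 hD IH h1).md (md_of_sOK IH h2)
    rwa [← h0] at this
  · simp only [Bool.and_eq_true, Nat.beq_eq] at h
    obtain ⟨h0, h1, h2, h3, h4, h5, h6, h7⟩ := h
    have := (inc_blk (td_of_ok h1) (hol_of_hOK hD IH h2) (hol_of_hOK hD IH h3)
      (hol_of_hOK hD IH h4) (inc_of_i0 hD IH h5) (inc_of_i0 hD IH h6)).md (md_of_sOK IH h7)
    rwa [← h0] at this
  · simp only [Bool.and_eq_true, Nat.beq_eq] at h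
    obtain ⟨h0, h1, h2, h3⟩ := h
    have := (inc_of_core hD IH h1 (inc_of_i0 hD IH h2)).md (md_of_sOK IH h3)
    rwa [← h0] at this
  · simp only [Bool.and_eq_true, Nat.beq_eq] at h
    obtain ⟨h0, h1, h2, h3⟩ := h
    have := (inc_of_core hD IH h1 (inc_of_i1 hD IH h2)).md (md_of_sOK IH h3)
    rwa [← h0] at this
  · exact absurd h (by simp)

end Step

/-- The recipes `rs` are valid for the orders `n, n + 1, ...`. -/
def listOK (D : Data) : ℕ → List (List ℕ) → Bool
  | _, [] => true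
  | n, r :: rs => recOK D n r && listOK D (n + 1) rs

theorem md_of_list {D : Data} (hD : D.Good) : ∀ (rs : List (List ℕ)) (n : ℕ),
    listOK D n rs = true → (∀ m < n, m ∉ D.E → Md (Fin m)) →
      ∀ m < n + rs.length, m ∉ D.E → Md (Fin m)
  | [], _, _, IH => IH
  | r :: rs, n, h, IH => by
    rw [listOK, Bool.and_eq_true] at h
    have := md_of_list hD rs (n + 1) h.2 fun m hm hE => by
      rcases Nat.lt_succ_iff_lt_or_eq.1 hm with h1 | rfl
      · exact IH m h1 hE
      · exact md_of_rec hD IH h.1 hE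
    intro m hm
    exact this m (by simp only [List.length_cons] at hm; omega)

/-- Large orders: `n = 7 m + u` with `m` prime to 30 and `u` depending on `n` modulo 210. -/
def largeOK (E us : List ℕ) (L U : ℕ) : Bool :=
  E.all (fun e => Nat.blt e L) && (!memB E 7 && (!memB E 8 && allLt (fun r =>
    us.any fun u => Nat.ble u U && (!memB E u && (Nat.beq ((r + 210 * U - u) % 7) 0 &&
      Nat.beq (Nat.gcd ((r + 210 * U - u) / 7) 30) 1))) 210))

theorem md_all {E us : List ℕ} {L U N : ℕ} (h : largeOK E us L U = true) (hL : 7 * L + U ≤ N)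
    (hU : 8 * U ≤ N) (h9 : 9 ≤ N) (h0 : ∀ m < N, m ∉ E → Md (Fin m)) :
    ∀ n, n ∉ E → Md (Fin n) := by
  simp only [largeOK, Bool.and_eq_true, List.all_eq_true, Nat.blt_eq, Bool.not_eq_true',
    ← Bool.not_eq_true, memB_iff] at h
  obtain ⟨hE, h7, h8, hr⟩ := h
  intro n
  induction n using Nat.strong_induction_on with
  | _ n IH =>
    intro hn
    by_cases hN : n < N
    · exact h0 n hN hn
    have h1 := allLt_spec hr (n % 210) (Nat.mod_lt _ (by norm_num))
    simp only [List.any_eq_true, Bool.and_eq_true, Nat.ble_eq, Bool.not_eq_true',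
      ← Bool.not_eq_true, memB_iff, Nat.beq_eq] at h1
    obtain ⟨u, -, hu, huE, hd, hg⟩ := h1
    obtain ⟨m, hm⟩ : ∃ m, n = 7 * m + u := ⟨(n - u) / 7, by omega⟩
    have hg' : Nat.gcd m 30 = 1 := by
      rw [← hg]
      have : m % 30 = ((n % 210 + 210 * U - u) / 7) % 30 := by omega
      rw [Nat.gcd_comm m, Nat.gcd_rec, this, ← Nat.gcd_rec, Nat.gcd_comm]
    have hmE : m ∉ E := fun hh => by have := hE m hh; omega
    have one : Md2 (Fin 1) := md_subsingleton.md2
    have := (inc_trunc (k := 7) (m := m) (u := u) (t := 1) (e := 0) (td_coprime hg') (by omega)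
      (hol_of_md (h0 8 (by omega) h8) one) (fun _ => hol_of_md (h0 7 (by omega) h7) one)
      (inc_of_md (by norm_num) (by simpa using IH m (by omega) hmE))).md
      (by simpa using IH u (by omega) huE)
    rw [hm]
    simpa using this

end Pool.Agent.Lib.MP_0d0fd2_co
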