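import Pool.Agent.Lib.MP_0d0fd2_co.CloBasic

/-! Transversal designs (as orthogonal arrays) and the weighting construction. -/

namespace Pool.Agent.Lib.MP_0d0fd2_co

open Fintype

/-- An orthogonal array with rows `I` and symbols `R`. -/
def OA (I R : Type) : Prop :=
  ∃ (A : Type) (Λ : I → A → R), ∀ i j, i ≠ j → Function.Bijective fun a => (Λ i a, Λ j a)

/-- A transversal design with `k` groups of size `m`. -/
def TD (k m : ℕ) : Prop := OA (Fin k) (Fin m)

theorem OA.map {I J R S : Type} (h : OA I R) (ι : J → I) (hι : Function.Injective ι)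
    (e : R ≃ S) : OA J S := by
  obtain ⟨A, Λ, h⟩ := h
  exact ⟨A, fun j a => e (Λ (ι j) a), fun i j hij =>
    (Equiv.prodCongr e e).bijective.comp (h _ _ (hι.ne hij))⟩

theorem OA.prod {I R S : Type} (h : OA I R) (h' : OA I S) : OA I (R × S) := by
  obtain ⟨A, Λ, h⟩ := h
  obtain ⟨B, Μ, h'⟩ := h'
  refine ⟨A × B, fun i a => (Λ i a.1, Μ i a.2), fun i j hij => ?_⟩
  exact (Equiv.prodProdProdComm R R S S).bijective.comp ((h i j hij).prodMap (h' i j hij))

theorem TD.mul {k a b : ℕ} (h : TD k a) (h' : TD k b) : TD k (a * b) :=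
  (OA.prod h h').map id Function.injective_id finProdFinEquiv

theorem TD.mono {k k' m : ℕ} (h : TD k m) (hk : k' ≤ k) : TD k' m :=
  OA.map h (Fin.castLE hk) (Fin.castLE_injective hk) (Equiv.refl _)

theorem td_one (k : ℕ) : TD k 1 :=
  ⟨Unit, fun _ _ => 0, fun _ _ _ =>
    ⟨fun _ _ _ => rfl, fun _ => ⟨(), Subsingleton.elim _ _⟩⟩⟩

theorem oa_ring {R I : Type} [CommRing R] (c : I → R) (hc : ∀ i j, i ≠ j → IsUnit (c i - c j)) :
    OA (Option I) R := by
  refine ⟨R × R, fun i a => i.elim a.2 fun i => a.1 + a.2 * c i, ?_⟩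
  rintro (_ | i) (_ | j) hij
  · exact absurd rfl hij
  · refine ⟨fun a b hab => ?_, fun p => ⟨(p.2 - p.1 * c j, p.1), by simp⟩⟩
    simp only [Option.elim, Prod.mk.injEq] at hab
    exact Prod.ext (by have := hab.2; rw [hab.1] at this; exact add_right_cancel this) hab.1
  · refine ⟨fun a b hab => ?_, fun p => ⟨(p.1 - p.2 * c i, p.2), by simp⟩⟩
    simp only [Option.elim, Prod.mk.injEq] at hab
    exact Prod.ext (by have := hab.1; rw [hab.2] at this; exact add_right_cancel this) hab.2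
  · obtain ⟨u, hu⟩ := hc i j fun h => hij (by rw [h])
    have hu' : (c i - c j) * ↑u⁻¹ = 1 := by rw [← hu]; simp
    refine ⟨fun a b hab => ?_, fun p =>
      ⟨(p.1 - (p.1 - p.2) * ↑u⁻¹ * c i, (p.1 - p.2) * ↑u⁻¹), ?_⟩⟩
    · simp only [Option.elim, Prod.mk.injEq] at hab
      have h2 : a.2 = b.2 := by linear_combination (hab.1 - hab.2) * ↑u⁻¹ - (a.2 - b.2) * hu'
      exact Prod.ext (by have := hab.1; rw [h2] at this; exact add_right_cancel this) h2
    · simp only [Option.elim]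
      exact Prod.ext (by ring) (by linear_combination (-(p.1 - p.2)) * hu')

theorem td_ring {R : Type} [CommRing R] [Fintype R] {k m : ℕ} (c : Fin k → R)
    (hc : ∀ i j, i ≠ j → IsUnit (c i - c j)) (hm : card R = m) : TD (k + 1) m :=
  (oa_ring c hc).map (finSuccEquiv k) (finSuccEquiv k).injective (equivFinOfCardEq hm)

theorem td_pow (p a k : ℕ) (hp : p.Prime) (hk : a = 0 ∨ k ≤ p ^ a + 1) : TD k (p ^ a) := by
  classical
  rcases Nat.eq_zero_or_pos a with rfl | ha
  · exact td_one k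
  · have : Fact p.Prime := ⟨hp⟩
    let _ : Fintype (GaloisField p a) := Fintype.ofFinite _
    have hc : card (GaloisField p a) = p ^ a := by
      rw [← Nat.card_eq_fintype_card, GaloisField.card p a ha.ne']
    refine (td_ring (k := p ^ a) (equivFinOfCardEq hc).symm (fun i j hij => ?_) hc).mono
      (hk.resolve_left ha.ne')
    exact (sub_ne_zero.2 ((equivFinOfCardEq hc).symm.injective.ne hij)).isUnit

theorem td_coprime {m : ℕ} (h : Nat.gcd m 30 = 1) : TD 8 m := by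
  have hm : m ≠ 0 := by rintro rfl; simp at h
  have : NeZero m := ⟨hm⟩
  have hu : ∀ d : ℕ, d ∣ 60 → IsUnit (d : ZMod m) := fun d hd => by
    rw [ZMod.isUnit_iff_coprime]
    have h1 : Nat.Coprime (30 * 30) m := Nat.Coprime.mul_left (Nat.Coprime.symm h) (Nat.Coprime.symm h)
    exact Nat.Coprime.coprime_dvd_left (hd.trans (by norm_num)) h1
  refine td_ring (R := ZMod m) (fun i : Fin 7 => ((i : ℕ) : ZMod m)) (fun i j hij => ?_) (ZMod.card m)
  have hi := i.2
  have hj := j.2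
  have hne : (i : ℕ) ≠ j := fun e => hij (Fin.ext e)
  rcases lt_or_gt_of_ne hne with hl | hl
  · have e : (((i : ℕ) : ZMod m)) - ((j : ℕ) : ZMod m) = -(((j - i : ℕ)) : ZMod m) := by
      rw [Nat.cast_sub hl.le]; ring
    rw [e]
    refine (hu _ ?_).neg
    have : (j : ℕ) - i ≤ 6 ∧ 1 ≤ (j : ℕ) - i := by omega
    generalize (j : ℕ) - i = d at this
    obtain ⟨h1, h2⟩ := this
    interval_cases d <;> norm_num
  · rw [← Nat.cast_sub hl.le]
    refine hu _ ?_
    have : (i : ℕ) - j ≤ 6 ∧ 1 ≤ (i : ℕ) - j := by omega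
    generalize (i : ℕ) - j = d at this
    obtain ⟨h1, h2⟩ := this
    interval_cases d <;> norm_num

/-- The weighting construction on a set `Y` of points of a transversal design. -/
theorem wfc {I R A : Type} [Fintype I] [Fintype R] (Λ : I → A → R)
    (hΛ : ∀ i j, i ≠ j → Function.Bijective fun a => (Λ i a, Λ j a)) (Y : I → R → Prop) (t : ℕ)
    (hY : ∀ a, Hol t (Nat.card {i // Y i (Λ i a)})) :
    Fr fun i => Nat.card {r // Y i r} * t := by
  classical
  refine ⟨{q : I × R // Y q.1 q.2} × Fin t, inferInstance, fun x => x.1.1.1, ?_, fun l => ?_⟩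
  · let j : (a : A) → {i // Y i (Λ i a)} × Fin t → {q : I × R // Y q.1 q.2} × Fin t :=
      fun a p => (⟨(p.1.1, Λ p.1.1 a), p.1.2⟩, p.2)
    have hj : ∀ a, Function.Injective (j a) := by
      rintro a ⟨⟨i, hi⟩, w⟩ ⟨⟨i', hi'⟩, w'⟩ h
      simp only [j, Prod.mk.injEq, Subtype.mk.injEq] at h
      obtain ⟨⟨rfl, -⟩, rfl⟩ := h
      rfl
    refine (PM.union (fun a x y => ∃ p q, j a p = x ∧ j a q = y ∧ p.1 ≠ q.1)
      (fun a => PM.push ((hY a).of_fin Nat.card_eq_fintype_card.symm) (j a) (hj a)) ?_).congr ?_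
    · rintro a b x y ⟨⟨⟨i, hi⟩, w⟩, ⟨⟨l, hl⟩, v⟩, rfl, rfl, h1⟩
        ⟨⟨⟨i', hi'⟩, w'⟩, ⟨⟨l', hl'⟩, v'⟩, e1, e2, -⟩
      simp only [j, Prod.mk.injEq, Subtype.mk.injEq] at e1 e2
      obtain ⟨⟨rfl, e1⟩, -⟩ := e1
      obtain ⟨⟨rfl, e2⟩, -⟩ := e2
      exact (hΛ _ _ fun h => h1 (Subtype.ext h)).1 (Prod.ext e1.symm e2.symm)
    · rintro ⟨⟨⟨i, r⟩, hi⟩, w⟩ ⟨⟨⟨l, s⟩, hl⟩, v⟩
      constructor
      · rintro ⟨a, ⟨⟨i', hi'⟩, w'⟩, ⟨⟨l', hl'⟩, v'⟩, e1, e2, h1⟩
        simp only [j, Prod.mk.injEq, Subtype.mk.injEq] at e1 e2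
        obtain ⟨⟨rfl, -⟩, -⟩ := e1
        obtain ⟨⟨rfl, -⟩, -⟩ := e2
        exact fun h => h1 (Subtype.ext h)
      · intro h
        obtain ⟨a, ha⟩ := (hΛ i l h).2 (r, s)
        simp only [Prod.mk.injEq] at ha
        obtain ⟨rfl, rfl⟩ := ha
        exact ⟨a, (⟨i, hi⟩, w), (⟨l, hl⟩, v), rfl, rfl, fun e => h (congrArg Subtype.val e)⟩
  · have e : {x : {q : I × R // Y q.1 q.2} × Fin t // x.1.1.1 = l} ≃ {r // Y l r} × Fin t :=
      ⟨fun x => (⟨x.1.1.1.2, by have h := x.1.1.2; rwa [x.2] at h⟩, x.1.2),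
        fun p => ⟨(⟨(l, p.1.1), p.1.2⟩, p.2), rfl⟩,
        by rintro ⟨⟨⟨⟨i, r⟩, hi⟩, w⟩, rfl⟩; rfl, fun p => rfl⟩
    rw [Nat.card_congr e]
    simp

/-- Truncating the last group to `u` points, weight `t`, `e` new points. -/
theorem inc_trunc {k m u t e : ℕ} (h : TD (k + 1) m) (hu : u ≤ m) (h1 : Hol t (k + 1))
    (h0 : u < m → Hol t k) (hI : Inc (m * t) e) : Inc (k * (m * t)) (u * t + e) := by
  classical
  obtain ⟨A, Λ, hΛ⟩ := h
  have hF := wfc Λ hΛ (fun i r => i ≠ Fin.last k ∨ (r : ℕ) < u) t fun a => by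
    by_cases ha : (Λ (Fin.last k) a : ℕ) < u
    · have : Nat.card {i // i ≠ Fin.last k ∨ (Λ i a : ℕ) < u} = k + 1 := by
        rw [Nat.card_congr (Equiv.subtypeUnivEquiv fun i => by
          by_cases hi : i = Fin.last k
          · exact Or.inr (hi ▸ ha)
          · exact Or.inl hi)]
        simp
      rwa [this]
    · have : Nat.card {i // i ≠ Fin.last k ∨ (Λ i a : ℕ) < u} = k := by
        rw [Nat.card_congr (Equiv.subtypeEquivRight (q := fun i => ¬ i = Fin.last k) fun i => by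
          constructor
          · rintro (hi | hi)
            · exact hi
            · rintro rfl
              exact ha hi
          · exact Or.inl)]
        simp
      rw [this]
      exact h0 (lt_of_le_of_lt (not_lt.1 ha) (Λ (Fin.last k) a).2)
  have c1 : ∀ l : Fin (k + 1), l ≠ Fin.last k →
      Nat.card {r : Fin m // l ≠ Fin.last k ∨ (r : ℕ) < u} = m := fun l hl => by
    rw [Nat.card_congr (Equiv.subtypeUnivEquiv fun _ => Or.inl hl)]
    simp
  have c2 : Nat.card {r : Fin m // Fin.last k ≠ Fin.last k ∨ (r : ℕ) < u} = u := by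
    have e : {r : Fin m // Fin.last k ≠ Fin.last k ∨ (r : ℕ) < u} ≃ Fin u :=
      ⟨fun r => ⟨r.1, r.2.resolve_left fun h => h rfl⟩, fun r => ⟨⟨r, r.2.trans_le hu⟩, Or.inr r.2⟩,
        fun _ => rfl, fun _ => rfl⟩
    rw [Nat.card_congr e]
    simp
  have := hF.fill (Fin.last k) e fun l hl => by rw [c1 l hl]; exact hI
  rw [c2, Finset.sum_congr rfl fun l hl => by rw [c1 l (Finset.ne_of_mem_erase hl)]] at this
  simpa [Finset.card_erase_of_mem] using this

/-- Uniform holes, `e` new points. -/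
theorem inc_unif {k t e : ℕ} (h : Hol t (k + 1)) (hI : Inc t e) : Inc (k * t) (t + e) := by
  simpa [Finset.card_erase_of_mem] using h.fr.fill (Fin.last k) e fun _ _ => hI

end Pool.Agent.Lib.MP_0d0fd2_co
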